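import Pool.Agent.Helper17K9.EX.Stm

/-!
# EVL: sums over `X` are sums over the table
-/

set_option autoImplicit false
set_option maxRecDepth 20000

namespace Pool.Agent.Helper17K9.EX

open Finset

namespace EvlL

theorem tab_nodup : (Tab.map (fun τ => ((τ.1 : Multiset ℕ), τ.2))).Nodup := by decide +kernel

theorem tab_ok : ∀ τ ∈ Tab, τ.1.length = 8 ∧ (∀ x ∈ τ.1, x ≤ 29) ∧
    (τ.2 = 0 ∧ 0 ∈ τ.1 ∨ (τ.2 = 1 ∨ τ.2 = -1) ∧ 0 ∉ τ.1) := by decide +kernel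

/-- the class of a line of the table -/
noncomputable def cls (τ : List ℕ × ℤ) : Finset (Fin 8 → ℤ) :=
  (Fintype.piFinset fun _ : Fin 8 => Finset.Icc (-29 : ℤ) 29).filter
    (fun v => ms v = (τ.1 : Multiset ℕ) ∧ sgn v = τ.2)

theorem aux (cna : S_CNA) (T : List (List ℕ × ℤ))
    (hnd' : (T.map (fun τ => ((τ.1 : Multiset ℕ), τ.2))).Nodup)
    (hok : ∀ τ ∈ T, τ.1.length = 8 ∧ (∀ x ∈ τ.1, x ≤ 29) ∧
      (τ.2 = 0 ∧ 0 ∈ τ.1 ∨ (τ.2 = 1 ∨ τ.2 = -1) ∧ 0 ∉ τ.1)) (Y : Finset (Fin 8 → ℤ))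
    (hY : ∀ v, v ∈ Y ↔ v ∈ (Fintype.piFinset fun _ : Fin 8 => Finset.Icc (-29 : ℤ) 29) ∧
      ∃ τ ∈ T, ms v = (τ.1 : Multiset ℕ) ∧ sgn v = τ.2) (ψ : Multiset ℕ → ℤ → ℤ) :
    ∑ v ∈ Y, ψ (ms v) (sgn v) =
      (T.map (fun τ => (cnt τ.1 : ℤ) * ψ (τ.1 : Multiset ℕ) τ.2)).sum := by
  have hnd : T.Nodup := hnd'.of_map _
  have hinj : ∀ τ ∈ T, ∀ τ' ∈ T, ((τ.1 : Multiset ℕ), τ.2) = ((τ'.1 : Multiset ℕ), τ'.2) →
      τ = τ' := fun τ hτ τ' hτ' h => List.inj_on_of_nodup_map hnd' hτ hτ' h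
  have hX : Y = T.toFinset.biUnion cls := by
    ext v
    rw [hY v]
    unfold cls
    simp only [Finset.mem_filter, Finset.mem_biUnion, List.mem_toFinset]
    constructor
    · rintro ⟨h1, τ, h2, h3⟩
      exact ⟨τ, h2, h1, h3⟩
    · rintro ⟨τ, h2, h1, h3⟩
      exact ⟨h1, τ, h2, h3⟩
  rw [hX, Finset.sum_biUnion, ← List.sum_toFinset _ hnd]
  · refine Finset.sum_congr rfl fun τ hτ => ?_
    have hτ' := List.mem_toFinset.1 hτ
    obtain ⟨h1, h2, h3⟩ := hok τ hτ'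
    have hc := cna 29 τ.1 τ.2 h1 (fun x hx => by exact_mod_cast h2 x hx) h3
    have hs : ∀ v ∈ cls τ, ψ (ms v) (sgn v) = ψ (τ.1 : Multiset ℕ) τ.2 := by
      intro v hv
      unfold cls at hv
      rw [(Finset.mem_filter.1 hv).2.1, (Finset.mem_filter.1 hv).2.2]
    rw [Finset.sum_congr rfl hs, Finset.sum_const, nsmul_eq_mul]
    have : (cls τ).card = cnt τ.1 := hc
    rw [this]
  · intro τ hτ τ' hτ' hne
    rw [Function.onFun, Finset.disjoint_left]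
    intro v hv hv'
    unfold cls at hv hv'
    have h1 : τ ∈ T := List.mem_toFinset.1 hτ
    have h2 : τ' ∈ T := List.mem_toFinset.1 hτ'
    refine hne (hinj τ h1 τ' h2 ?_)
    rw [Prod.mk.injEq]
    exact ⟨(Finset.mem_filter.1 hv).2.1.symm.trans (Finset.mem_filter.1 hv').2.1,
      (Finset.mem_filter.1 hv).2.2.symm.trans (Finset.mem_filter.1 hv').2.2⟩

end EvlL

open EvlL

theorem evl (cna : S_CNA) : S_EVL := by
  intro ψ
  exact aux cna Tab tab_nodup tab_ok X (fun v => by unfold X; rw [Finset.mem_filter]) ψ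

end Pool.Agent.Helper17K9.EX
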