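import Pool.Agent.Helper17K9.EX.Stm

/-!
# [INV] (helper27)
-/

set_option autoImplicit false

namespace Pool.Agent.Helper17K9.EX

open Pool.Agent.Q10.E8

namespace InL

lemma mem_X {v : Fin 8 → ℤ} : v ∈ X ↔ (∀ i, v i ∈ Finset.Icc (-29 : ℤ) 29) ∧
    ∃ τ ∈ Tab, ms v = (τ.1 : Multiset ℕ) ∧ sgn v = τ.2 := by
  unfold X
  rw [Finset.mem_filter, Fintype.mem_piFinset]

attribute [local irreducible] X

lemma ms_perm (v : Fin 8 → ℤ) (π : Equiv.Perm (Fin 8)) : ms (fun i => v (π i)) = ms v := by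
  unfold ms
  have h := Multiset.map_univ_val_equiv π
  conv_rhs => rw [← h]
  rw [Multiset.map_map]
  rfl

lemma sgn_perm (v : Fin 8 → ℤ) (π : Equiv.Perm (Fin 8)) : sgn (fun i => v (π i)) = sgn v := by
  unfold sgn
  rw [Equiv.prod_comp π v]

lemma ms_flip (v : Fin 8 → ℤ) (i j : Fin 8) :
    ms (fun l => if l = i ∨ l = j then - v l else v l) = ms v := by
  unfold ms
  refine Multiset.map_congr rfl fun l _ => ?_
  by_cases h : l = i ∨ l = j
  · show (if l = i ∨ l = j then - v l else v l).natAbs = _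
    rw [if_pos h]
    exact Int.natAbs_neg _
  · show (if l = i ∨ l = j then - v l else v l).natAbs = _
    rw [if_neg h]

lemma sgn_flip (v : Fin 8 → ℤ) {i j : Fin 8} (hij : i ≠ j) :
    sgn (fun l => if l = i ∨ l = j then - v l else v l) = sgn v := by
  unfold sgn
  congr 1
  have e : ∀ l, (if l = i ∨ l = j then - v l else v l) =
      (if l = i then (-1) else 1) * ((if l = j then (-1) else 1) * v l) := by
    intro l
    by_cases h : l = i
    · subst h
      rw [if_pos (Or.inl rfl), if_pos rfl, if_neg hij]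
      ring
    · by_cases h2 : l = j
      · subst h2
        rw [if_pos (Or.inr rfl), if_neg h, if_pos rfl]
        ring
      · rw [if_neg (by tauto), if_neg h, if_neg h2]
        ring
  simp only [e]
  rw [Finset.prod_mul_distrib, Finset.prod_mul_distrib, Finset.prod_ite_eq', Finset.prod_ite_eq']
  simp

lemma sum_ms (v : Fin 8 → ℤ) (g : ℕ → ℤ) : ∑ i, g (v i).natAbs = ((ms v).map g).sum := by
  unfold ms
  rw [Multiset.map_map]
  rfl

lemma mem_ms (v : Fin 8 → ℤ) (i : Fin 8) : (v i).natAbs ∈ ms v := by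
  unfold ms
  exact Multiset.mem_map.2 ⟨i, Finset.mem_univ i, rfl⟩

/-- facts on the table -/
lemma tab1 : ∀ τ ∈ Tab, (τ.1.map (fun x : ℕ => (x : ℤ) ^ 2)).sum = 864 := by
  decide +kernel

lemma tab2 : ∀ τ ∈ Tab, ((∀ x ∈ τ.1, x % 2 = 0) ∧ (τ.1.map (fun x : ℕ => (x : ℤ))).sum % 4 = 0) ∨
    ((∀ x ∈ τ.1, x % 2 = 1) ∧ (τ.2 = 1 ∧ (τ.1.map (fun x : ℕ => (x : ℤ))).sum % 4 = 0 ∨
      τ.2 = -1 ∧ (τ.1.map (fun x : ℕ => (x : ℤ))).sum % 4 = 2)) := by
  decide +kernel

lemma tab3 : ∀ τ ∈ Tab, ¬ List.Perm τ.1 [12, 12, 24, 0, 0, 0, 0, 0] := by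
  decide +kernel

lemma sq {v : Fin 8 → ℤ} (hv : v ∈ X) : ∑ i, v i ^ 2 = 864 := by
  obtain ⟨-, τ, hτ, h1, -⟩ := mem_X.1 hv
  have h2 := sum_ms v (fun x => (x : ℤ) ^ 2)
  have h3 : ∀ i, (((v i).natAbs : ℕ) : ℤ) ^ 2 = v i ^ 2 := fun i => Int.natAbs_sq (v i)
  simp only [h3] at h2
  rw [h2, h1, Multiset.map_coe, Multiset.sum_coe]
  exact tab1 τ hτ

/-- signs -/
lemma signs {ι : Type*} (s : Finset ι) (g : ι → ℤ) (h : ∀ i ∈ s, g i = 1 ∨ g i = -1) :
    (∏ i ∈ s, g i = 1 ∨ ∏ i ∈ s, g i = -1) ∧ (4 : ℤ) ∣ (∑ i ∈ s, (1 - g i)) - (1 - ∏ i ∈ s, g i) := by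
  classical
  induction s using Finset.induction_on with
  | empty => simp
  | insert a s ha ih =>
    obtain ⟨h1, h2⟩ := ih fun i hi => h i (Finset.mem_insert_of_mem hi)
    have h3 := h a (Finset.mem_insert_self a s)
    rw [Finset.prod_insert ha, Finset.sum_insert ha]
    obtain ⟨k, hk⟩ := h2
    refine ⟨?_, ?_⟩
    · rcases h3 with h3 | h3 <;> rcases h1 with h1 | h1 <;> rw [h3, h1] <;> norm_num
    · rcases h3 with h3 | h3 <;> rcases h1 with h1 | h1 <;> rw [h1] at hk ⊢ <;> rw [h3] <;> omega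

lemma sign_prod {ι : Type*} (s : Finset ι) (v : ι → ℤ) :
    (∏ i ∈ s, v i).sign = ∏ i ∈ s, (v i).sign := by
  classical
  induction s using Finset.induction_on with
  | empty => rfl
  | insert a s ha ih => rw [Finset.prod_insert ha, Finset.prod_insert ha, Int.sign_mul, ih]

lemma shell {v : Fin 8 → ℤ} (hv : v ∈ X) : InShell 108 v := by
  have hsq := sq hv
  obtain ⟨-, τ, hτ, h1, h2⟩ := mem_X.1 hv
  have hmem : ∀ i, (v i).natAbs ∈ τ.1 := fun i => by
    have := mem_ms v i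
    rw [h1] at this
    exact Multiset.mem_coe.1 this
  have hsum : ∑ i, (((v i).natAbs : ℕ) : ℤ) = (τ.1.map (fun x : ℕ => (x : ℤ))).sum := by
    rw [sum_ms v (fun x => (x : ℤ)), h1, Multiset.map_coe, Multiset.sum_coe]
  refine ⟨?_, by rw [hsq]; norm_num⟩
  rcases tab2 τ hτ with ⟨he, hs⟩ | ⟨ho, hs⟩
  · have hev : ∀ i, v i % 2 = 0 := fun i => by
      have := he _ (hmem i)
      omega
    refine ⟨fun i j => by rw [hev i, hev j], ?_⟩
    rw [← hsum] at hs
    have h4 : ∀ i, (4 : ℤ) ∣ (((v i).natAbs : ℕ) : ℤ) - v i := fun i => by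
      have := hev i
      omega
    have h5 : (4 : ℤ) ∣ ∑ i, ((((v i).natAbs : ℕ) : ℤ) - v i) := Finset.dvd_sum fun i _ => h4 i
    rw [Finset.sum_sub_distrib] at h5
    omega
  · have hod : ∀ i, v i % 2 = 1 := fun i => by
      have := ho _ (hmem i)
      omega
    refine ⟨fun i j => by rw [hod i, hod j], ?_⟩
    have hsg : ∀ i, (v i).sign = 1 ∨ (v i).sign = -1 := fun i => by
      have := hod i
      rcases lt_trichotomy (v i) 0 with h | h | h
      · exact Or.inr (Int.sign_eq_neg_one_of_neg h)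
      · omega
      · exact Or.inl (Int.sign_eq_one_of_pos h)
    obtain ⟨-, k1, hk1⟩ := signs Finset.univ (fun i => (v i).sign) fun i _ => hsg i
    have h6 : ∏ i, (v i).sign = τ.2 := by
      rw [← h2]
      unfold sgn
      exact (sign_prod Finset.univ v).symm
    rw [h6] at hk1
    have h4 : ∀ i, (4 : ℤ) ∣ v i - ((((v i).natAbs : ℕ) : ℤ) + (1 - (v i).sign)) := fun i => by
      have h7 := hod i
      rcases hsg i with h | h
      · have : 0 < v i := Int.sign_eq_one_iff_pos.1 h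
        rw [h]
        omega
      · have : v i < 0 := Int.sign_eq_neg_one_iff_neg.1 h
        rw [h]
        omega
    have h5 : (4 : ℤ) ∣ ∑ i, (v i - ((((v i).natAbs : ℕ) : ℤ) + (1 - (v i).sign))) :=
      Finset.dvd_sum fun i _ => h4 i
    rw [Finset.sum_sub_distrib, Finset.sum_add_distrib, hsum] at h5
    rcases hs with ⟨h8, h9⟩ | ⟨h8, h9⟩
    · rw [h8] at hk1
      omega
    · rw [h8] at hk1
      omega

lemma nonem : X.Nonempty := by
  refine ⟨![28, 8, 4, 0, 0, 0, 0, 0], mem_X.2 ⟨?_, ([28, 8, 4, 0, 0, 0, 0, 0], 0), ?_, ?_, ?_⟩⟩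
  · intro i
    rw [Finset.mem_Icc]
    fin_cases i <;> decide
  · unfold Tab
    exact List.mem_cons_self
  · rfl
  · decide

end InL

attribute [local irreducible] X

open InL in
theorem inv : S_INV := by
  refine ⟨⟨fun v hv π => ?_, fun v hv i j hij => ?_, fun v hv => sq hv⟩, fun v hv => shell hv, ?_,
    ?_, ?_⟩
  · obtain ⟨h0, τ, hτ, h1, h2⟩ := mem_X.1 hv
    exact mem_X.2 ⟨fun i => h0 (π i), τ, hτ, by rw [ms_perm, h1], by rw [sgn_perm, h2]⟩
  · obtain ⟨h0, τ, hτ, h1, h2⟩ := mem_X.1 hv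
    refine mem_X.2 ⟨fun l => ?_, τ, hτ, by rw [ms_flip, h1], by rw [sgn_flip v hij, h2]⟩
    have := Finset.mem_Icc.1 (h0 l)
    rw [Finset.mem_Icc]
    split_ifs
    · constructor <;> omega
    · exact this
  · exact nonem
  · refine ⟨⟨?_, ?_⟩, ?_⟩
    · decide
    · decide
    · decide
  · intro h
    obtain ⟨-, τ, hτ, h1, -⟩ := mem_X.1 h
    refine tab3 τ hτ ?_
    have h3 : ms ![12, 12, 24, 0, 0, 0, 0, 0] =
        (([12, 12, 24, 0, 0, 0, 0, 0] : List ℕ) : Multiset ℕ) := by decide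
    rw [h3] at h1
    exact (Multiset.coe_eq_coe.1 h1).symm

end Pool.Agent.Helper17K9.EX
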