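import Pool.Agent.Helper17K9.EX.Stm

set_option autoImplicit false

/-!
# Leaf [LAM] of the relay EX (helper29)

A set on a sphere with the right monomial sums of degree 10 is a design of strength 11.
-/

open MeasureTheory Metric Set

namespace Pool.Agent.Helper17K9.EX

open Pool.Agent.Q10.E8

namespace Lam

/-- Monomial integrals. -/
noncomputable def I (β : Fin 8 → ℕ) : ℝ := ∫ u : S7, ∏ i, ((u : E) i) ^ β i ∂sg

theorem cont_prod (β : Fin 8 → ℕ) : Continuous (fun u : S7 => ∏ i, ((u : E) i) ^ β i) :=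
  continuous_finsetProd _ fun i _ => (cont_coord i).pow _

/-- Raise an exponent by two. -/
def up (β : Fin 8 → ℕ) (i : Fin 8) : Fin 8 → ℕ := fun l => if l = i then β l + 2 else β l

theorem prod_up {R : Type*} [CommRing R] (x : Fin 8 → R) (β : Fin 8 → ℕ) (i : Fin 8) :
    ∏ l, x l ^ up β i l = x i ^ 2 * ∏ l, x l ^ β l := by
  have h : ∀ l, x l ^ up β i l = (if l = i then x l ^ 2 else 1) * x l ^ β l := by
    intro l
    unfold up
    split_ifs with h1
    · ring
    · ring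
  simp only [h, Finset.prod_mul_distrib]
  simp

theorem sum_up (β : Fin 8 → ℕ) (i : Fin 8) : ∑ l, up β i l = ∑ l, β l + 2 := by
  have h : ∀ l, up β i l = (if l = i then 2 else 0) + β l := by
    intro l
    unfold up
    split_ifs <;> omega
  simp only [h, Finset.sum_add_distrib]
  simp [add_comm]

theorem I_rel (β : Fin 8 → ℕ) : I β = ∑ i, I (up β i) := by
  unfold I
  rw [← integral_finsetSum]
  · refine integral_congr_ae (Filter.Eventually.of_forall fun u => ?_)
    show ∏ i, ((u : E) i) ^ β i = ∑ i, ∏ l, ((u : E) l) ^ up β i l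
    have h : ∀ i, ∏ l, ((u : E) l) ^ up β i l = ((u : E) i) ^ 2 * ∏ l, ((u : E) l) ^ β l :=
      fun i => prod_up (fun l => (u : E) l) β i
    simp only [h]
    rw [← Finset.sum_mul, sum_sq, one_mul]
  · intro i _
    exact integrable_cont _ (cont_prod (up β i))

theorem T_rel (N : ℤ) (Y : Finset (Fin 8 → ℤ)) (hY : ∀ v ∈ Y, ∑ i, v i ^ 2 = N) (β : Fin 8 → ℕ) :
    N * T Y β = ∑ i, T Y (up β i) := by
  unfold T
  rw [Finset.sum_comm, Finset.mul_sum]
  refine Finset.sum_congr rfl fun v hv => ?_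
  have h : ∀ i, ∏ l, (v l) ^ up β i l = (v i) ^ 2 * ∏ l, (v l) ^ β l := fun i => prod_up v β i
  simp only [h]
  rw [← Finset.sum_mul, hY v hv]

/-- The defect. -/
noncomputable def L (m : ℕ) (Y : Finset (Fin 8 → ℤ)) (β : Fin 8 → ℕ) : ℝ :=
  (T Y β : ℝ) / 2 ^ (∑ i, β i) * sg.real Set.univ
    - (Y.card : ℝ) * (Real.sqrt (2 * (m : ℝ)) ^ (∑ i, β i) * I β)

theorem L_rel (m : ℕ) (Y : Finset (Fin 8 → ℤ)) (hY : ∀ v ∈ Y, ∑ i, v i ^ 2 = 8 * (m : ℤ))
    (β : Fin 8 → ℕ) : 2 * (m : ℝ) * L m Y β = ∑ i, L m Y (up β i) := by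
  have h1 := T_rel (8 * (m : ℤ)) Y hY β
  have h1' : 8 * (m : ℝ) * (T Y β : ℝ) = ∑ i, (T Y (up β i) : ℝ) := by
    exact_mod_cast h1
  have h2 := I_rel β
  have h3 : Real.sqrt (2 * (m : ℝ)) ^ 2 = 2 * m := Real.sq_sqrt (by positivity)
  unfold L
  simp only [sum_up]
  rw [Finset.sum_sub_distrib, ← Finset.sum_mul, ← Finset.sum_div, ← Finset.mul_sum, ← Finset.mul_sum,
    ← h1', ← h2, pow_add, pow_add, h3]
  have h4 : (2 : ℝ) ^ (∑ i, β i) ≠ 0 := by positivity
  field_simp
  ring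

theorem neg_mem (N : ℤ) (Y : Finset (Fin 8 → ℤ)) (h : Inv N Y) (v : Fin 8 → ℤ) (hv : v ∈ Y) :
    (fun i => - v i) ∈ Y := by
  have h1 := h.2.1 _ (h.2.1 _ (h.2.1 _ (h.2.1 v hv 0 1 (by decide)) 2 3 (by decide)) 4 5 (by decide))
    6 7 (by decide)
  convert h1 using 1
  funext i
  fin_cases i <;> simp

theorem T_odd (N : ℤ) (Y : Finset (Fin 8 → ℤ)) (h : Inv N Y) (β : Fin 8 → ℕ) (ho : Odd (∑ i, β i)) :
    T Y β = 0 := by
  have h1 : T Y β = - T Y β := by
    unfold T
    rw [← Finset.sum_neg_distrib]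
    refine Finset.sum_bij' (fun v _ i => - v i) (fun v _ i => - v i) ?_ ?_ ?_ ?_ ?_
    · intro v hv
      exact neg_mem N Y h v hv
    · intro v hv
      exact neg_mem N Y h v hv
    · intro v _
      funext i
      simp
    · intro v _
      funext i
      simp
    · intro v _
      have h2 : ∀ i, (- v i) ^ β i = (-1) ^ β i * v i ^ β i := fun i => neg_pow _ _
      simp only [h2, Finset.prod_mul_distrib]
      rw [Finset.prod_pow_eq_pow_sum, ho.neg_one_pow]
      ring
  omega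

theorem exists_odd (β : Fin 8 → ℕ) (ho : Odd (∑ i, β i)) : ∃ i, Odd (β i) := by
  by_contra hc
  push Not at hc
  have h1 : Even (∑ i, β i) := by
    rw [even_iff_two_dvd]
    refine Finset.dvd_sum fun i _ => ?_
    have := hc i
    rw [Nat.not_odd_iff_even] at this
    exact even_iff_two_dvd.mp this
  exact (Nat.not_even_iff_odd.mpr ho) h1

theorem L_zero (hS : S_SPM) (m : ℕ) (Y : Finset (Fin 8 → ℤ)) (hm : 1 ≤ m) (hI : Inv (8 * (m : ℤ)) Y)
    (h1 : ∀ γ : Fin 8 → ℕ, ∑ i, γ i = 5 →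
      215040 * T Y (fun i => 2 * γ i)
        = (∏ i, (Nat.doubleFactorial (2 * γ i - 1) : ℤ)) * (8 * (m : ℤ)) ^ 5 * Y.card)
    (h2 : ∀ β : Fin 8 → ℕ, ∑ i, β i = 10 → (∃ i, Odd (β i)) → T Y β = 0) :
    ∀ β : Fin 8 → ℕ, ∑ i, β i ≤ 11 → L m Y β = 0 := by
  have hodd : ∀ β : Fin 8 → ℕ, Odd (∑ i, β i) → L m Y β = 0 := by
    intro β ho
    unfold L
    rw [T_odd _ Y hI β ho, I, hS.2 β (exists_odd β ho)]
    simp
  have hten : ∀ β : Fin 8 → ℕ, ∑ i, β i = 10 → L m Y β = 0 := by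
    intro β hβ
    by_cases ho : ∃ i, Odd (β i)
    · unfold L
      rw [h2 β hβ ho, I, hS.2 β ho]
      simp
    · push Not at ho
      have he : ∀ i, ∃ g, β i = 2 * g := by
        intro i
        have := ho i
        rw [Nat.not_odd_iff_even] at this
        exact even_iff_two_dvd.mp this
      choose γ hγ using he
      have hβ' : β = fun i => 2 * γ i := funext hγ
      have hs : ∑ i, γ i = 5 := by
        rw [hβ'] at hβ
        simp only [← Finset.mul_sum] at hβ
        omega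
      have a1 := h1 γ hs
      have a2 := hS.1 γ hs
      rw [← hβ'] at a1
      have e1 : (∫ u : S7, ∏ i, ((u : E) i) ^ (2 * γ i) ∂sg) = I β := by
        unfold I
        rw [hβ']
      rw [e1] at a2
      have a1' : 215040 * (T Y β : ℝ)
          = (∏ i, (Nat.doubleFactorial (2 * γ i - 1) : ℝ)) * (8 * (m : ℝ)) ^ 5 * Y.card := by
        exact_mod_cast a1
      unfold L
      rw [hβ]
      have h3 : Real.sqrt (2 * (m : ℝ)) ^ 10 = (2 * m) ^ 5 := by
        rw [show (10 : ℕ) = 2 * 5 by norm_num, pow_mul, Real.sq_sqrt (by positivity)]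
      rw [h3]
      have b1 : (T Y β : ℝ) = (∏ i, (Nat.doubleFactorial (2 * γ i - 1) : ℝ)) * (8 * (m : ℝ)) ^ 5 * Y.card
          / 215040 := by
        rw [← a1']; ring
      have b2 : I β = (∏ i, (Nat.doubleFactorial (2 * γ i - 1) : ℝ)) * sg.real Set.univ / 215040 := by
        rw [← a2]; ring
      rw [b1, b2]
      ring
  have hev : ∀ j : ℕ, j ≤ 5 → ∀ β : Fin 8 → ℕ, ∑ i, β i = 10 - 2 * j → L m Y β = 0 := by
    intro j
    induction j with
    | zero => intro _ β hβ; exact hten β (by omega)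
    | succ j ih =>
      intro hj β hβ
      have h3 := L_rel m Y hI.2.2 β
      have h4 : ∑ i, L m Y (up β i) = 0 := by
        refine Finset.sum_eq_zero fun i _ => ih (by omega) _ ?_
        rw [sum_up, hβ]
        omega
      rw [h4] at h3
      have h5 : 2 * (m : ℝ) ≠ 0 := by
        have : (1 : ℝ) ≤ m := by exact_mod_cast hm
        positivity
      exact (mul_eq_zero.mp h3).resolve_left h5
  intro β hβ
  rcases Nat.even_or_odd (∑ i, β i) with he | ho
  · obtain ⟨r, hr⟩ := he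
    exact hev (5 - r) (by omega) β (by omega)
  · exact hodd β ho

end Lam

open Lam in
theorem lam (hS : S_SPM) : S_LAM := by
  intro m Y hm hI h1 h2 p hp
  have hL := L_zero hS m Y hm hI h1 h2
  have e1 : ∀ v : Fin 8 → ℤ, MvPolynomial.eval (fun i => (v i : ℝ) / 2) p
      = ∑ s ∈ p.support, p.coeff s * (((∏ i, v i ^ s i : ℤ) : ℝ) / 2 ^ (∑ i, s i)) := by
    intro v
    rw [MvPolynomial.eval_eq']
    refine Finset.sum_congr rfl fun s _ => ?_
    congr 1
    push_cast
    simp only [div_pow]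
    rw [Finset.prod_div_distrib, Finset.prod_pow_eq_pow_sum]
  have e2 : ∀ u : S7, MvPolynomial.eval (fun i => Real.sqrt (2 * (m : ℝ)) * (u : E) i) p
      = ∑ s ∈ p.support, p.coeff s * (Real.sqrt (2 * (m : ℝ)) ^ (∑ i, s i) * ∏ i, ((u : E) i) ^ s i) := by
    intro u
    rw [MvPolynomial.eval_eq']
    refine Finset.sum_congr rfl fun s _ => ?_
    congr 1
    simp only [mul_pow]
    rw [Finset.prod_mul_distrib, Finset.prod_pow_eq_pow_sum]
  have e3 : ∫ u : S7, MvPolynomial.eval (fun i => Real.sqrt (2 * (m : ℝ)) * (u : E) i) p ∂sg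
      = ∑ s ∈ p.support, p.coeff s * (Real.sqrt (2 * (m : ℝ)) ^ (∑ i, s i) * I s) := by
    simp only [e2]
    rw [integral_finsetSum]
    · refine Finset.sum_congr rfl fun s _ => ?_
      rw [integral_const_mul, integral_const_mul]
      rfl
    · intro s _
      refine Integrable.const_mul (Integrable.const_mul ?_ _) _
      exact integrable_cont _ (cont_prod s)
  have e4 : ∑ v ∈ Y, (1 : ℝ) * MvPolynomial.eval (fun i => (v i : ℝ) / 2) p
      = ∑ s ∈ p.support, p.coeff s * ((T Y s : ℝ) / 2 ^ (∑ i, s i)) := by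
    simp only [one_mul, e1]
    rw [Finset.sum_comm]
    refine Finset.sum_congr rfl fun s _ => ?_
    rw [← Finset.mul_sum, ← Finset.sum_div]
    unfold T
    push_cast
    rfl
  have e5 : ∑ v ∈ Y, (1 : ℝ) = (Y.card : ℝ) := by simp
  show (∑ v ∈ Y, (1 : ℝ) * MvPolynomial.eval (fun i => (v i : ℝ) / 2) p) * sg.real Set.univ
    = (∑ v ∈ Y, (1 : ℝ)) * ∫ u : S7, MvPolynomial.eval
        (fun i => Real.sqrt (2 * (m : ℝ)) * (u : E) i) p ∂sg
  rw [e3, e4, e5, Finset.sum_mul, Finset.mul_sum]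
  refine Finset.sum_congr rfl fun s hs => ?_
  have h3 : ∑ i, s i ≤ 11 := by
    have h4 := MvPolynomial.le_totalDegree hs
    rw [Finsupp.sum_fintype _ _ (fun _ => rfl)] at h4
    exact h4.trans hp
  have h5 := hL s h3
  unfold L at h5
  have h6 : (T Y s : ℝ) / 2 ^ (∑ i, s i) * sg.real Set.univ
      = (Y.card : ℝ) * (Real.sqrt (2 * (m : ℝ)) ^ (∑ i, s i) * I s) := by linarith
  rw [mul_assoc, h6]
  ring

end Pool.Agent.Helper17K9.EX
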