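import Pool.Agent.Helper17K9.EX.Stm

/-!
# SEV: the seven equations
-/

set_option autoImplicit false

namespace Pool.Agent.Helper17K9.EX

open Finset

namespace SevL

/-- power sums of a multiset -/
def Pm (a : ℕ) (M : Multiset ℕ) : ℤ := (M.map (fun x : ℕ => (x : ℤ) ^ (2 * a))).sum

theorem Pm_coe (a : ℕ) (μ : List ℕ) : Pm a (μ : Multiset ℕ) = pw a μ := by
  unfold Pm pw
  rw [Multiset.map_coe, Multiset.sum_coe]
  congr 1
  induction μ with
  | nil => rfl
  | cons x μ ih =>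
    simp only [List.map_cons, ih]
    rfl

theorem P_eq (a : ℕ) (v : Fin 8 → ℤ) : P a v = Pm a (ms v) := by
  unfold P Pm ms
  rw [Multiset.map_map]
  refine Finset.sum_congr rfl fun i _ => ?_
  simp only [Function.comp]
  rw [pow_mul, pow_mul, Int.natCast_natAbs, sq_abs]

theorem prod_eq (v : Fin 8 → ℤ) : ∏ i, v i = sgn v * ((ms v).prod : ℤ) := by
  have h1 : (ms v).prod = (∏ i, v i).natAbs := by
    unfold ms
    rw [← Finset.prod_eq_multiset_prod]
    exact (map_prod Int.natAbsHom v Finset.univ).symm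
  rw [h1]
  unfold sgn
  exact (Int.sign_mul_natAbs _).symm

/-- sums over the table -/
def tb (g : List ℕ → ℤ → ℤ) : ℤ := (Tab.map (fun τ => (cnt τ.1 : ℤ) * g τ.1 τ.2)).sum

theorem n1 : tb (fun _ _ => 1) = 21168000 := by decide +kernel

theorem n2 : 10 * tb (fun μ _ => pw 2 μ) = 3 * 864 ^ 2 * 21168000 := by decide +kernel

theorem n3 : 8 * tb (fun μ _ => pw 3 μ) = 864 ^ 3 * 21168000 := by decide +kernel

theorem n4 : 16 * tb (fun μ _ => pw 4 μ) = 864 ^ 4 * 21168000 := by decide +kernel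

theorem n5 : 10 * tb (fun μ _ => pw 2 μ ^ 2) = 864 ^ 4 * 21168000 := by decide +kernel

theorem n6 : 256 * tb (fun μ _ => pw 5 μ) = 9 * 864 ^ 5 * 21168000 := by decide +kernel

theorem n7 : 64 * tb (fun μ _ => pw 2 μ * pw 3 μ) = 3 * 864 ^ 5 * 21168000 := by decide +kernel

theorem n8 : tb (fun μ s => s * ((μ.prod : ℕ) : ℤ)) = 0 := by decide +kernel

end SevL

open SevL

theorem sev (evl : S_EVL) : S_SEV := by
  have h1 : ((X.card : ℕ) : ℤ) = 21168000 := by
    have h := evl (fun _ _ => 1)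
    rw [Finset.sum_const, nsmul_eq_mul, mul_one] at h
    rw [h]
    exact n1
  have hP : ∀ a, ∑ v ∈ X, P a v = tb (fun μ _ => pw a μ) := by
    intro a
    have h := evl (fun M _ => Pm a M)
    simp only [Pm_coe] at h
    rw [Finset.sum_congr rfl fun v _ => P_eq a v, h]
    rfl
  refine ⟨⟨?_, ?_, ?_, ?_, ?_, ?_, ?_⟩, by exact_mod_cast h1⟩
  · rw [hP, h1]
    exact n2
  · rw [hP, h1]
    exact n3
  · rw [hP, h1]
    exact n4
  · have h := evl (fun M _ => Pm 2 M ^ 2)
    simp only [Pm_coe] at h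
    rw [Finset.sum_congr rfl fun v _ => by rw [P_eq 2 v], h, h1]
    exact n5
  · rw [hP, h1]
    exact n6
  · have h := evl (fun M _ => Pm 2 M * Pm 3 M)
    simp only [Pm_coe] at h
    rw [Finset.sum_congr rfl fun v _ => by rw [P_eq 2 v, P_eq 3 v], h, h1]
    exact n7
  · have h := evl (fun M s => s * ((M.prod : ℕ) : ℤ))
    simp only [Multiset.prod_coe] at h
    have h2 : ∀ v ∈ X, ∏ i, v i = sgn v * (((ms v).prod : ℕ) : ℤ) := fun v _ => by
      rw [prod_eq]
    rw [Finset.sum_congr rfl h2, h]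
    exact n8

end Pool.Agent.Helper17K9.EX
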