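import Pool.Agent.Helper17K9.EX.Stm

set_option autoImplicit false

/-!
# Leaf [SIM] of the relay EX (helper29)

Quaternionic similarities of the lattice `E_8` map designs to designs.
-/

open MeasureTheory Metric Set

namespace Pool.Agent.Helper17K9.EX

open Pool.Agent.Q10.E8

namespace Sim

/-- Left multiplication by a quaternion in both blocks of four coordinates. -/
def qm {R : Type*} [CommRing R] (a b c d : R) (v : Fin 8 → R) : Fin 8 → R :=
  ![a * v 0 - b * v 1 - c * v 2 - d * v 3,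
    a * v 1 + b * v 0 + c * v 3 - d * v 2,
    a * v 2 - b * v 3 + c * v 0 + d * v 1,
    a * v 3 + b * v 2 - c * v 1 + d * v 0,
    a * v 4 - b * v 5 - c * v 6 - d * v 7,
    a * v 5 + b * v 4 + c * v 7 - d * v 6,
    a * v 6 - b * v 7 + c * v 4 + d * v 5,
    a * v 7 + b * v 6 - c * v 5 + d * v 4]

theorem qm_norm {R : Type*} [CommRing R] (a b c d : R) (v : Fin 8 → R) :
    ∑ i, qm a b c d v i ^ 2 = (a ^ 2 + b ^ 2 + c ^ 2 + d ^ 2) * ∑ i, v i ^ 2 := by
  simp only [Fin.sum_univ_eight]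
  simp [qm]
  ring

theorem qm_map {R S : Type*} [CommRing R] [CommRing S] (f : R →+* S) (a b c d : R) (v : Fin 8 → R)
    (i : Fin 8) : f (qm a b c d v i) = qm (f a) (f b) (f c) (f d) (fun j => f (v j)) i := by
  fin_cases i <;> simp [qm]

theorem qm_smul {R : Type*} [CommRing R] (a b c d s : R) (v : Fin 8 → R) (i : Fin 8) :
    qm a b c d (fun j => s * v j) i = s * qm a b c d v i := by
  fin_cases i <;> simp [qm] <;> ring

theorem qm_add {R : Type*} [CommRing R] (a b c d : R) (v w : Fin 8 → R) (i : Fin 8) :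
    qm a b c d (fun j => v j + w j) i = qm a b c d v i + qm a b c d w i := by
  fin_cases i <;> simp [qm] <;> ring

theorem qm_sub {R : Type*} [CommRing R] (a b c d : R) (v w : Fin 8 → R) (i : Fin 8) :
    qm a b c d (fun j => v j - w j) i = qm a b c d v i - qm a b c d w i := by
  fin_cases i <;> simp [qm] <;> ring

theorem qm_inj (a b c d : ℤ) (h : 0 < a ^ 2 + b ^ 2 + c ^ 2 + d ^ 2) :
    Function.Injective (qm a b c d) := by
  intro v w hvw
  have h1 := qm_norm a b c d (fun j => v j - w j)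
  have h2 : ∑ i, qm a b c d (fun j => v j - w j) i ^ 2 = 0 := by
    refine Finset.sum_eq_zero fun i _ => ?_
    rw [qm_sub, hvw]
    ring
  rw [h2] at h1
  have h3 : ∑ i, (v i - w i) ^ 2 = 0 := by
    rcases mul_eq_zero.mp h1.symm with h4 | h4
    · omega
    · exact h4
  rw [Finset.sum_eq_zero_iff_of_nonneg (fun i _ => sq_nonneg _)] at h3
  funext i
  have := h3 i (Finset.mem_univ i)
  have h5 : v i - w i = 0 := by
    simpa using this
  omega

theorem qm_isE8 (a b c d : ℤ) (v : Fin 8 → ℤ) (hv : IsE8 v) : IsE8 (qm a b c d v) := by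
  obtain ⟨h1, h2⟩ := hv
  have hy : ∀ i, ∃ y : ℤ, v i = v 0 + 2 * y := by
    intro i
    have := h1 i 0
    exact ⟨(v i - v 0) / 2, by omega⟩
  choose y hy using hy
  rw [Fin.sum_univ_eight] at h2
  have e1 := hy 1
  have e2 := hy 2
  have e3 := hy 3
  have e4 := hy 4
  have e5 := hy 5
  have e6 := hy 6
  have e7 := hy 7
  have hpar : ∀ i, ∃ z : ℤ, qm a b c d v i = (a + b + c + d) * v 0 + 2 * z := by
    intro i
    fin_cases i
    · exact ⟨- b * v 0 - b * y 1 - c * v 0 - c * y 2 - d * v 0 - d * y 3, by simp [qm, e1, e2, e3]; ring⟩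
    · exact ⟨a * y 1 + c * y 3 - d * v 0 - d * y 2, by simp [qm, e1, e2, e3]; ring⟩
    · exact ⟨a * y 2 - b * v 0 - b * y 3 + d * y 1, by simp [qm, e1, e2, e3]; ring⟩
    · exact ⟨a * y 3 + b * y 2 - c * v 0 - c * y 1, by simp [qm, e1, e2, e3]; ring⟩
    · exact ⟨a * y 4 - b * v 0 - b * y 5 - c * v 0 - c * y 6 - d * v 0 - d * y 7,
        by simp [qm, e4, e5, e6, e7]; ring⟩
    · exact ⟨a * y 5 + b * y 4 + c * y 7 - d * v 0 - d * y 6, by simp [qm, e4, e5, e6, e7]; ring⟩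
    · exact ⟨a * y 6 - b * v 0 - b * y 7 + c * y 4 + d * y 5, by simp [qm, e4, e5, e6, e7]; ring⟩
    · exact ⟨a * y 7 + b * y 6 - c * v 0 - c * y 5 + d * y 4, by simp [qm, e4, e5, e6, e7]; ring⟩
  refine ⟨fun i j => ?_, ?_⟩
  · obtain ⟨z, hz⟩ := hpar i
    obtain ⟨z', hz'⟩ := hpar j
    rw [hz, hz']
    omega
  · obtain ⟨s, hs⟩ : ∃ s : ℤ, v 0 + v 1 + v 2 + v 3 + v 4 + v 5 + v 6 + v 7 = 4 * s :=
      ⟨(v 0 + v 1 + v 2 + v 3 + v 4 + v 5 + v 6 + v 7) / 4, by omega⟩
    have key : ∑ i, qm a b c d v i = 4 * ((a + b + c + d) * s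
        - b * (2 * v 0 + y 1 + y 3 + y 5 + y 7) - c * (2 * v 0 + y 1 + y 2 + y 5 + y 6)
        - d * (2 * v 0 + y 2 + y 3 + y 6 + y 7)) := by
      have hh : 4 * ((a + b + c + d) * s) = (a + b + c + d)
          * (v 0 + v 1 + v 2 + v 3 + v 4 + v 5 + v 6 + v 7) := by rw [hs]; ring
      rw [mul_sub, mul_sub, mul_sub, hh, Fin.sum_univ_eight]
      simp [qm]
      rw [e1, e2, e3, e4, e5, e6, e7]
      ring
    rw [key]
    omega

theorem qm_shell (a b c d : ℤ) (m k : ℕ) (h : a ^ 2 + b ^ 2 + c ^ 2 + d ^ 2 = (k : ℤ)) (v : Fin 8 → ℤ)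
    (hv : InShell m v) : InShell (m * k) (qm a b c d v) := by
  refine ⟨qm_isE8 a b c d v hv.1, ?_⟩
  rw [qm_norm, h, hv.2]
  push_cast
  ring

/-- The isometry of the Euclidean space. -/
theorem exists_isom (a b c d s : ℝ) (h : a ^ 2 + b ^ 2 + c ^ 2 + d ^ 2 = s ^ 2) (hs : 0 < s) :
    ∃ R : E ≃ₗᵢ[ℝ] E, ∀ (u : E) (i : Fin 8), s * (R u) i = qm a b c d (fun j => u j) i := by
  let L : E →ₗ[ℝ] E :=
    { toFun := fun u => WithLp.toLp 2 (fun i => s⁻¹ * qm a b c d (fun j => u j) i)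
      map_add' := by
        intro u v
        ext i
        simp only [PiLp.add_apply]
        rw [qm_add]
        ring
      map_smul' := by
        intro r u
        ext i
        simp only [PiLp.smul_apply, smul_eq_mul, RingHom.id_apply]
        rw [qm_smul]
        ring }
  have hL : ∀ u, ‖L u‖ = ‖u‖ := by
    intro u
    have h1 : ‖L u‖ ^ 2 = ‖u‖ ^ 2 := by
      rw [EuclideanSpace.norm_sq_eq, EuclideanSpace.norm_sq_eq]
      have h2 : ∀ i, ‖(L u) i‖ ^ 2 = (s⁻¹) ^ 2 * qm a b c d (fun j => u j) i ^ 2 := by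
        intro i
        show ‖s⁻¹ * qm a b c d (fun j => u j) i‖ ^ 2 = _
        rw [Real.norm_eq_abs, sq_abs]
        ring
      simp only [h2]
      rw [← Finset.mul_sum, qm_norm, h, ← mul_assoc]
      have h3 : (s⁻¹) ^ 2 * s ^ 2 = 1 := by
        field_simp
      rw [h3, one_mul]
      refine Finset.sum_congr rfl fun i _ => ?_
      rw [Real.norm_eq_abs, sq_abs]
    have h4 := norm_nonneg (L u)
    have h5 := norm_nonneg u
    exact (pow_left_inj₀ h4 h5 two_ne_zero).mp h1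
  let li : E →ₗᵢ[ℝ] E := ⟨L, hL⟩
  refine ⟨li.toLinearIsometryEquiv rfl, ?_⟩
  intro u i
  show s * (s⁻¹ * qm a b c d (fun j => u j) i) = _
  rw [← mul_assoc, mul_inv_cancel₀ hs.ne', one_mul]

/-- The polynomial `p ∘ σ`. -/
noncomputable def pull (a b c d : ℝ) (p : MvPolynomial (Fin 8) ℝ) : MvPolynomial (Fin 8) ℝ :=
  MvPolynomial.bind₁ (qm (MvPolynomial.C a) (MvPolynomial.C b) (MvPolynomial.C c) (MvPolynomial.C d)
    MvPolynomial.X) p

theorem eval_pull (a b c d : ℝ) (p : MvPolynomial (Fin 8) ℝ) (x : Fin 8 → ℝ) :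
    MvPolynomial.eval x (pull a b c d p) = MvPolynomial.eval (qm a b c d x) p := by
  unfold pull
  rw [MvPolynomial.eval, MvPolynomial.eval₂Hom_bind₁]
  congr 2
  funext i
  have h := qm_map (MvPolynomial.eval₂Hom (RingHom.id ℝ) x) (MvPolynomial.C a) (MvPolynomial.C b)
    (MvPolynomial.C c) (MvPolynomial.C d) MvPolynomial.X i
  rw [h]
  simp

theorem deg_X (i : Fin 8) (a : ℝ) :
    ((MvPolynomial.C a * MvPolynomial.X i : MvPolynomial (Fin 8) ℝ)).totalDegree ≤ 1 := by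
  refine (MvPolynomial.totalDegree_mul _ _).trans ?_
  simp

theorem deg_add {p q : MvPolynomial (Fin 8) ℝ} (hp : p.totalDegree ≤ 1) (hq : q.totalDegree ≤ 1) :
    (p + q).totalDegree ≤ 1 :=
  (MvPolynomial.totalDegree_add _ _).trans (max_le hp hq)

theorem deg_sub {p q : MvPolynomial (Fin 8) ℝ} (hp : p.totalDegree ≤ 1) (hq : q.totalDegree ≤ 1) :
    (p - q).totalDegree ≤ 1 :=
  (MvPolynomial.totalDegree_sub _ _).trans (max_le hp hq)

theorem deg_mmm (a b c d : ℝ) (i j k l : Fin 8) :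
    ((MvPolynomial.C a * MvPolynomial.X i - MvPolynomial.C b * MvPolynomial.X j
      - MvPolynomial.C c * MvPolynomial.X k - MvPolynomial.C d * MvPolynomial.X l
      : MvPolynomial (Fin 8) ℝ)).totalDegree ≤ 1 :=
  deg_sub (deg_sub (deg_sub (deg_X _ _) (deg_X _ _)) (deg_X _ _)) (deg_X _ _)

theorem deg_ppm (a b c d : ℝ) (i j k l : Fin 8) :
    ((MvPolynomial.C a * MvPolynomial.X i + MvPolynomial.C b * MvPolynomial.X j
      + MvPolynomial.C c * MvPolynomial.X k - MvPolynomial.C d * MvPolynomial.X l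
      : MvPolynomial (Fin 8) ℝ)).totalDegree ≤ 1 :=
  deg_sub (deg_add (deg_add (deg_X _ _) (deg_X _ _)) (deg_X _ _)) (deg_X _ _)

theorem deg_mpp (a b c d : ℝ) (i j k l : Fin 8) :
    ((MvPolynomial.C a * MvPolynomial.X i - MvPolynomial.C b * MvPolynomial.X j
      + MvPolynomial.C c * MvPolynomial.X k + MvPolynomial.C d * MvPolynomial.X l
      : MvPolynomial (Fin 8) ℝ)).totalDegree ≤ 1 :=
  deg_add (deg_add (deg_sub (deg_X _ _) (deg_X _ _)) (deg_X _ _)) (deg_X _ _)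

theorem deg_pmp (a b c d : ℝ) (i j k l : Fin 8) :
    ((MvPolynomial.C a * MvPolynomial.X i + MvPolynomial.C b * MvPolynomial.X j
      - MvPolynomial.C c * MvPolynomial.X k + MvPolynomial.C d * MvPolynomial.X l
      : MvPolynomial (Fin 8) ℝ)).totalDegree ≤ 1 :=
  deg_add (deg_sub (deg_add (deg_X _ _) (deg_X _ _)) (deg_X _ _)) (deg_X _ _)

theorem deg_qm (a b c d : ℝ) (i : Fin 8) :
    (qm (MvPolynomial.C a) (MvPolynomial.C b) (MvPolynomial.C c) (MvPolynomial.C d)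
      (MvPolynomial.X : Fin 8 → MvPolynomial (Fin 8) ℝ) i).totalDegree ≤ 1 := by
  fin_cases i
  · exact deg_mmm a b c d 0 1 2 3
  · exact deg_ppm a b c d 1 0 3 2
  · exact deg_mpp a b c d 2 3 0 1
  · exact deg_pmp a b c d 3 2 1 0
  · exact deg_mmm a b c d 4 5 6 7
  · exact deg_ppm a b c d 5 4 7 6
  · exact deg_mpp a b c d 6 7 4 5
  · exact deg_pmp a b c d 7 6 5 4

theorem deg_pull (a b c d : ℝ) (p : MvPolynomial (Fin 8) ℝ) :
    (pull a b c d p).totalDegree ≤ p.totalDegree := by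
  unfold pull
  conv_lhs => rw [p.as_sum]
  rw [map_sum]
  refine (MvPolynomial.totalDegree_finsetSum _ _).trans ?_
  refine Finset.sup_le fun s hs => ?_
  rw [MvPolynomial.bind₁_monomial]
  refine (MvPolynomial.totalDegree_mul _ _).trans ?_
  rw [MvPolynomial.totalDegree_C, zero_add]
  refine (MvPolynomial.totalDegree_finsetProd _ _).trans ?_
  refine le_trans ?_ (MvPolynomial.le_totalDegree hs)
  refine Finset.sum_le_sum fun i _ => ?_
  refine (MvPolynomial.totalDegree_pow _ _).trans ?_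
  calc s i * _ ≤ s i * 1 := Nat.mul_le_mul_left _ (deg_qm a b c d i)
    _ = s i := mul_one _

theorem cont_eval (s : ℝ) (p : MvPolynomial (Fin 8) ℝ) :
    Continuous (fun u : S7 => MvPolynomial.eval (fun i => s * (u : E) i) p) := by
  have h1 : Continuous (fun u : S7 => (fun i => s * (u : E) i : Fin 8 → ℝ)) := by
    refine continuous_pi fun i => ?_
    exact continuous_const.mul (cont_coord i)
  exact (MvPolynomial.continuous_eval p).comp h1

end Sim

open Sim in
theorem sim : S_SIM := by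
  intro t m k Y u hk hY hD hu hn
  obtain ⟨a, b, c, d, h⟩ := Nat.sum_four_squares k
  have hZ : (a : ℤ) ^ 2 + (b : ℤ) ^ 2 + (c : ℤ) ^ 2 + (d : ℤ) ^ 2 = (k : ℤ) := by exact_mod_cast h
  have hR : (a : ℝ) ^ 2 + (b : ℝ) ^ 2 + (c : ℝ) ^ 2 + (d : ℝ) ^ 2 = (Real.sqrt k) ^ 2 := by
    rw [Real.sq_sqrt (Nat.cast_nonneg k)]
    exact_mod_cast h
  have hs : 0 < Real.sqrt k := Real.sqrt_pos.mpr (by exact_mod_cast hk)
  have hinj : Function.Injective (qm (a : ℤ) b c d) := by
    apply qm_inj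
    rw [hZ]
    exact_mod_cast hk
  refine ⟨Y.image (qm (a : ℤ) b c d), qm (a : ℤ) b c d u, ?_, ⟨?_, ?_⟩, ?_, ?_, ?_⟩
  · intro v hv
    obtain ⟨w, hw, rfl⟩ := Finset.mem_image.mp hv
    exact qm_shell _ _ _ _ m k hZ w (hY w hw)
  · exact hD.1.image _
  · obtain ⟨R, hRR⟩ := exists_isom (a : ℝ) b c d (Real.sqrt k) hR hs
    intro p hp
    have h1 := hD.2 (pull (a : ℝ) b c d p) ((deg_pull _ _ _ _ p).trans hp)
    have e1 : ∑ v ∈ Y.image (qm (a : ℤ) b c d), (1 : ℝ) * MvPolynomial.eval (fun i => (v i : ℝ) / 2) p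
        = ∑ v ∈ Y, (1 : ℝ) * MvPolynomial.eval (fun i => (v i : ℝ) / 2) (pull (a : ℝ) b c d p) := by
      rw [Finset.sum_image (fun x _ y _ hxy => hinj hxy)]
      refine Finset.sum_congr rfl fun v _ => ?_
      rw [eval_pull]
      congr 2
      congr 1
      funext i
      have h2 := qm_map (Int.castRingHom ℝ) (a : ℤ) b c d v i
      simp only [eq_intCast, Int.cast_natCast] at h2
      rw [h2]
      have h3 := qm_smul (a : ℝ) b c d (1 / 2) (fun j => (v j : ℝ)) i
      have h4 : (fun j => (v j : ℝ) / 2) = fun j => (1 / 2 : ℝ) * (v j : ℝ) := by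
        funext j; ring
      rw [h4, h3]
      ring
    have e2 : ∑ v ∈ Y.image (qm (a : ℤ) b c d), (1 : ℝ) = ∑ v ∈ Y, (1 : ℝ) := by
      rw [Finset.sum_image (fun x _ y _ hxy => hinj hxy)]
    have e3 : ∫ u : S7, MvPolynomial.eval (fun i => Real.sqrt (2 * (m : ℝ)) * (u : E) i)
          (pull (a : ℝ) b c d p) ∂sg
        = ∫ u : S7, MvPolynomial.eval (fun i => Real.sqrt (2 * ((m * k : ℕ) : ℝ)) * (u : E) i) p ∂sg := by
      rw [← integral_rot R _ (cont_eval (Real.sqrt (2 * ((m * k : ℕ) : ℝ))) p)]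
      refine integral_congr_ae (Filter.Eventually.of_forall fun u => ?_)
      show MvPolynomial.eval (fun i => Real.sqrt (2 * (m : ℝ)) * (u : E) i) (pull (a : ℝ) b c d p)
        = MvPolynomial.eval (fun i => Real.sqrt (2 * ((m * k : ℕ) : ℝ)) * (R (u : E)) i) p
      rw [eval_pull]
      congr 2
      funext i
      rw [qm_smul, ← hRR, ← mul_assoc, ← Real.sqrt_mul (by positivity)]
      congr 2
      push_cast
      ring
    show (∑ v ∈ Y.image (qm (a : ℤ) b c d), (1 : ℝ) * MvPolynomial.eval (fun i => (v i : ℝ) / 2) p)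
      * (sg Set.univ).toReal = (∑ v ∈ Y.image (qm (a : ℤ) b c d), (1 : ℝ))
      * ∫ u : S7, MvPolynomial.eval (fun i => Real.sqrt (2 * ((m * k : ℕ) : ℝ)) * (u : E) i) p ∂sg
    rw [e1, e2, ← e3]
    exact h1
  · exact Finset.card_image_of_injective _ hinj
  · exact qm_shell _ _ _ _ m k hZ u hu
  · intro hc
    obtain ⟨w, hw, hw2⟩ := Finset.mem_image.mp hc
    exact hn (hinj hw2 ▸ hw)

end Pool.Agent.Helper17K9.EX
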