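import Pool.Agent.Helper17K9.EX.Stm
import Pool.Agent.Helper17K9.ED.Sph
import Pool.Agent.Helper17K9.ED.Sup

/-!
# SPM: the monomial integrals of degree 10 over the sphere
-/

set_option autoImplicit false

namespace Pool.Agent.Helper17K9.EX

open Pool.Agent.Q10.E8 MeasureTheory
open scoped RealInnerProductSpace

namespace SpmL

/-- the monomial integrals -/
noncomputable def J (β : Fin 8 → ℕ) : ℝ := ∫ u : S7, ∏ i, ((u : E) i) ^ (β i) ∂sg

theorem cont (β : Fin 8 → ℕ) : Continuous (fun u : S7 => ∏ i, ((u : E) i) ^ (β i)) := by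
  refine continuous_finsetProd _ fun i _ => ?_
  exact (cont_coord i).pow _

/-- the reflection -/
noncomputable def R (i : Fin 8) : E ≃ₗᵢ[ℝ] E :=
  LinearIsometryEquiv.piLpCongrRight 2
    (fun j => if j = i then LinearIsometryEquiv.neg ℝ else LinearIsometryEquiv.refl ℝ ℝ)

theorem R_apply (i j : Fin 8) (u : E) : R i u j = if j = i then - u j else u j := by
  by_cases h : j = i <;> simp [R, h]

theorem J_odd (β : Fin 8 → ℕ) (i : Fin 8) (hi : Odd (β i)) : J β = 0 := by
  have h := integral_rot (R i) _ (cont β)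
  have h2 : ∀ u : S7, (∏ j, ((rot (R i) u : E) j) ^ (β j)) = - ∏ j, ((u : E) j) ^ (β j) := by
    intro u
    rw [← Finset.mul_prod_erase _ _ (Finset.mem_univ i),
      ← Finset.mul_prod_erase Finset.univ (fun j => ((u : E) j) ^ (β j)) (Finset.mem_univ i),
      ← neg_mul]
    congr 1
    · show (R i (u : E) i) ^ (β i) = _
      rw [R_apply, if_pos rfl, hi.neg_pow]
    · refine Finset.prod_congr rfl fun j hj => ?_
      show (R i (u : E) j) ^ (β j) = _
      rw [R_apply, if_neg (Finset.ne_of_mem_erase hj)]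
  have h3 : ∫ u : S7, (∏ j, ((rot (R i) u : E) j) ^ (β j)) ∂sg = - J β := by
    simp only [h2]
    rw [integral_neg]
    rfl
  have h4 : - J β = J β := h3.symm.trans h
  linarith

theorem F_exp (z : Fin 8 → ℝ) (n : ℕ) :
    F n (WithLp.toLp 2 z) = ∑ β ∈ Finset.piAntidiag Finset.univ n,
      (Nat.multinomial Finset.univ β : ℝ) * J β * ∏ i, z i ^ β i := by
  unfold F J
  have h1 : ∀ u : S7, ⟪(u : E), (WithLp.toLp 2 z : E)⟫ ^ n
      = ∑ β ∈ Finset.piAntidiag Finset.univ n,
        (Nat.multinomial Finset.univ β : ℝ) * (∏ i, ((u : E) i) ^ β i) * ∏ i, z i ^ β i := by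
    intro u
    have h2 : ⟪(u : E), (WithLp.toLp 2 z : E)⟫ = ∑ i, (u : E) i * z i := by
      rw [PiLp.inner_apply]
      refine Finset.sum_congr rfl fun i _ => ?_
      simp [mul_comm]
    rw [h2, Finset.sum_pow_eq_sum_piAntidiag]
    refine Finset.sum_congr rfl fun β _ => ?_
    rw [mul_assoc, ← Finset.prod_mul_distrib]
    simp only [mul_pow]
  simp only [h1]
  rw [integral_finsetSum]
  · refine Finset.sum_congr rfl fun β _ => ?_
    rw [integral_mul_const, integral_const_mul]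
  · intro β _
    exact ((integrable_cont _ (cont β)).const_mul _).mul_const _

theorem F_norm (z : Fin 8 → ℝ) :
    F 10 (WithLp.toLp 2 z) = ∑ γ ∈ Finset.piAntidiag Finset.univ 5,
      (Nat.multinomial Finset.univ γ : ℝ) * F 10 (e 0) * ∏ i, z i ^ (2 * γ i) := by
  rw [F_eq]
  have h1 : ‖(WithLp.toLp 2 z : E)‖ ^ 10 = (∑ i, z i ^ 2) ^ 5 := by
    have h2 : ‖(WithLp.toLp 2 z : E)‖ ^ 2 = ∑ i, z i ^ 2 := by
      rw [EuclideanSpace.real_norm_sq_eq]
    calc ‖(WithLp.toLp 2 z : E)‖ ^ 10 = (‖(WithLp.toLp 2 z : E)‖ ^ 2) ^ 5 := by ring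
      _ = _ := by rw [h2]
  rw [h1, Finset.sum_pow_eq_sum_piAntidiag, Finset.sum_mul]
  refine Finset.sum_congr rfl fun γ _ => ?_
  have h3 : ∏ i, (z i ^ 2) ^ γ i = ∏ i, z i ^ (2 * γ i) :=
    Finset.prod_congr rfl fun i _ => (pow_mul (z i) 2 (γ i)).symm
  rw [h3]
  ring

theorem coef (γ : Fin 8 → ℕ) (hγ : ∑ i, γ i = 5) :
    (Nat.multinomial Finset.univ (fun i => 2 * γ i) : ℝ) * J (fun i => 2 * γ i)
      = (Nat.multinomial Finset.univ γ : ℝ) * F 10 (e 0) := by
  have h : (∑ β ∈ Finset.piAntidiag Finset.univ 10,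
        MvPolynomial.monomial (Finsupp.equivFunOnFinite.symm β)
          ((Nat.multinomial Finset.univ β : ℝ) * J β) : MvPolynomial (Fin 8) ℝ)
      = ∑ γ ∈ Finset.piAntidiag Finset.univ 5,
        MvPolynomial.monomial (Finsupp.equivFunOnFinite.symm (fun i => 2 * γ i))
          ((Nat.multinomial Finset.univ γ : ℝ) * F 10 (e 0)) := by
    apply MvPolynomial.funext
    intro z
    have hm : ∀ (β : Fin 8 → ℕ) (a : ℝ), MvPolynomial.eval z
        (MvPolynomial.monomial (Finsupp.equivFunOnFinite.symm β) a) = a * ∏ i, z i ^ β i := by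
      intro β a
      rw [MvPolynomial.eval_monomial, Finsupp.prod_fintype _ _ (fun i => pow_zero _)]
      rfl
    rw [map_sum, map_sum]
    simp only [hm]
    rw [← F_exp, ← F_norm]
  have h2 := congrArg
    (MvPolynomial.coeff (Finsupp.equivFunOnFinite.symm (fun i => 2 * γ i))) h
  simp only [MvPolynomial.coeff_sum, MvPolynomial.coeff_monomial] at h2
  rw [Finset.sum_eq_single (fun i => 2 * γ i), if_pos rfl, Finset.sum_eq_single γ, if_pos rfl] at h2
  · exact h2
  · intro β _ hβ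
    rw [if_neg]
    intro h3
    apply hβ
    have h4 := Finsupp.equivFunOnFinite.symm.injective h3
    funext i
    have h5 := congrFun h4 i
    simpa using h5
  · intro hβ
    exfalso
    apply hβ
    rw [Finset.mem_piAntidiag]
    exact ⟨hγ, fun i _ => Finset.mem_univ i⟩
  · intro β _ hβ
    rw [if_neg]
    intro h3
    exact hβ (Finsupp.equivFunOnFinite.symm.injective h3)
  · intro hβ
    exfalso
    apply hβ
    rw [Finset.mem_piAntidiag]
    refine ⟨?_, fun i _ => Finset.mem_univ i⟩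
    rw [← Finset.mul_sum, hγ]
    norm_num

theorem fac (n : ℕ) : (2 * n).factorial = 2 ^ n * n.factorial * (2 * n - 1).doubleFactorial := by
  cases n with
  | zero => simp
  | succ k =>
    rw [show 2 * (k + 1) = (2 * k + 1) + 1 by ring, Nat.factorial_eq_mul_doubleFactorial,
      show (2 * k + 1) + 1 = 2 * (k + 1) by ring, Nat.doubleFactorial_two_mul]
    rfl

theorem J_even (γ : Fin 8 → ℕ) (hγ : ∑ i, γ i = 5) :
    945 * J (fun i => 2 * γ i)
      = (∏ i, (Nat.doubleFactorial (2 * γ i - 1) : ℝ)) * F 10 (e 0) := by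
  have h1 := coef γ hγ
  have h2 : (∏ i, (2 * γ i).factorial) * Nat.multinomial Finset.univ (fun i => 2 * γ i)
      = Nat.factorial 10 := by
    have h := Nat.multinomial_spec (Finset.univ : Finset (Fin 8)) (fun i => 2 * γ i)
    rw [h, ← Finset.mul_sum, hγ]
    norm_num
  have h3 : (∏ i, (γ i).factorial) * Nat.multinomial Finset.univ γ = Nat.factorial 5 := by
    have h := Nat.multinomial_spec (Finset.univ : Finset (Fin 8)) γ
    rw [h, hγ]
  have h4 : ∏ i, (2 * γ i).factorial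
      = 2 ^ 5 * (∏ i, (γ i).factorial) * ∏ i, (2 * γ i - 1).doubleFactorial := by
    have : ∀ i, (2 * γ i).factorial
        = 2 ^ (γ i) * (γ i).factorial * (2 * γ i - 1).doubleFactorial := fun i => fac _
    rw [Finset.prod_congr rfl (fun i _ => this i), Finset.prod_mul_distrib,
      Finset.prod_mul_distrib, Finset.prod_pow_eq_pow_sum, hγ]
  obtain ⟨A, hA⟩ : ∃ A : ℝ, A = ∏ i, ((γ i).factorial : ℝ) := ⟨_, rfl⟩
  obtain ⟨D, hD⟩ : ∃ D : ℝ, D = ∏ i, (Nat.doubleFactorial (2 * γ i - 1) : ℝ) := ⟨_, rfl⟩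
  obtain ⟨m1, hm1⟩ : ∃ m1 : ℝ, m1 = (Nat.multinomial Finset.univ (fun i => 2 * γ i) : ℝ) :=
    ⟨_, rfl⟩
  obtain ⟨m2, hm2⟩ : ∃ m2 : ℝ, m2 = (Nat.multinomial Finset.univ γ : ℝ) := ⟨_, rfl⟩
  have h5 : 32 * A * D * m1 = 3628800 := by
    rw [h4] at h2
    have h := congrArg (Nat.cast : ℕ → ℝ) h2
    push_cast at h
    rw [← hA, ← hD, ← hm1] at h
    rw [h]
    norm_num [Nat.factorial]
  have h6 : A * m2 = 120 := by
    have h := congrArg (Nat.cast : ℕ → ℝ) h3
    push_cast at h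
    rw [← hA, ← hm2] at h
    rw [h]
    norm_num [Nat.factorial]
  rw [← hm1, ← hm2] at h1
  rw [← hD]
  have h7 : 3628800 * J (fun i => 2 * γ i) = 3840 * D * F 10 (e 0) := by
    calc 3628800 * J (fun i => 2 * γ i) = 32 * A * D * (m1 * J (fun i => 2 * γ i)) := by
          rw [← h5]; ring
      _ = 32 * (A * m2) * D * F 10 (e 0) := by rw [h1]; ring
      _ = 3840 * D * F 10 (e 0) := by rw [h6]; ring
  linarith

end SpmL

theorem spm : S_SPM := by
  constructor
  · intro γ hγ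
    have h1 := SpmL.J_even γ hγ
    have h2 := Pool.Agent.Helper17K9.ED.sph Pool.Agent.Helper17K9.ED.sup 5
    have h3 : Pool.Agent.Helper17K9.ED.sc 5 = 45 := by
      have h4 := Pool.Agent.Helper17K9.ED.sup 5
      have h5 : Nat.centralBinom 5 = 252 := by decide
      rw [h5] at h4
      push_cast at h4
      linarith
    rw [h3] at h2
    have h2' : 10 * 4 ^ 5 * F 10 (e 0) = ((45 : ℤ) : ℝ) * sg.real Set.univ := h2
    push_cast at h2'
    have h6 : SpmL.J (fun i => 2 * γ i) = ∫ u : S7, ∏ i, ((u : E) i) ^ (2 * γ i) ∂sg := rfl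
    rw [← h6]
    obtain ⟨D, hD⟩ : ∃ D : ℝ, D = ∏ i, (Nat.doubleFactorial (2 * γ i - 1) : ℝ) := ⟨_, rfl⟩
    rw [← hD] at h1 ⊢
    have h7 : 2048 * F 10 (e 0) = 9 * sg.real Set.univ := by linarith [h2']
    have h8 : 945 * 2048 * SpmL.J (fun i => 2 * γ i) = D * (9 * sg.real Set.univ) := by
      rw [← h7]
      linear_combination 2048 * h1
    linarith
  · rintro β ⟨i, hi⟩
    exact SpmL.J_odd β i hi

end Pool.Agent.Helper17K9.EX
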