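import Pool.Agent.Helper17K9.ED.Stm

set_option autoImplicit false

/-!
# Relay EX (helper17, MP_130199_nt, hard): spherical 11-designs INSIDE the shells of `E_8`

Final theorem: for every `k ≥ 1` the shell `S_{108 k}` contains a nonempty proper subset which is a spherical
`11`-design (so the obvious analogue of the conjecture for subsets of the shells is false; the starting result
says that no single Weyl orbit is an 8-design).  For `k = 1` it has 21168000 points, 5.9 per cent of the shell.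
Construction: `X` = the vectors `v` (doubled coordinates) whose multiset of absolute values and whose sign of the
product of the coordinates are in the table `Tab` (104 lines); it is invariant under permutations of the
coordinates and changes of an even number of signs; checked numerically.
-/

namespace Pool.Agent.Helper17K9.EX

open Pool.Agent.Q10.E8

/-- The multiset of the absolute values of the coordinates. -/
def ms (v : Fin 8 → ℤ) : Multiset ℕ := Finset.univ.val.map (fun i => (v i).natAbs)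

/-- The sign of the product of the coordinates. -/
def sgn (v : Fin 8 → ℤ) : ℤ := (∏ i, v i).sign

/-- The table: absolute values in decreasing order, sign of the product. -/
def Tab : List (List ℕ × ℤ) :=
  [([28, 8, 4, 0, 0, 0, 0, 0], 0),
   ([24, 12, 8, 4, 4, 4, 4, 4], (-1)),
   ([22, 14, 6, 6, 6, 6, 6, 2], (-1)),
   ([20, 16, 12, 8, 0, 0, 0, 0], 0),
   ([20, 12, 8, 8, 8, 8, 8, 0], 0),
   ([18, 18, 10, 10, 2, 2, 2, 2], 1),
   ([18, 10, 10, 10, 10, 10, 6, 2], (-1)),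
   ([16, 16, 12, 12, 4, 4, 4, 4], 1),
   ([14, 14, 14, 14, 6, 6, 2, 2], 1),
   ([24, 12, 6, 6, 6, 6, 0, 0], 0),
   ([18, 18, 12, 6, 6, 0, 0, 0], 0),
   ([18, 18, 6, 6, 6, 6, 6, 6], (-1)),
   ([18, 12, 12, 12, 6, 6, 6, 0], 0),
   ([27, 9, 3, 3, 3, 3, 3, 3], (-1)),
   ([21, 15, 9, 9, 3, 3, 3, 3], (-1)),
   ([21, 9, 9, 9, 9, 9, 3, 3], 1),
   ([15, 15, 15, 9, 9, 3, 3, 3], 1),
   ([15, 15, 9, 9, 9, 9, 9, 3], (-1)),
   ([28, 4, 4, 4, 4, 4, 0, 0], 0),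
   ([26, 6, 6, 6, 6, 6, 2, 2], (-1)),
   ([24, 8, 8, 8, 8, 4, 4, 0], 0),
   ([22, 10, 10, 10, 6, 6, 2, 2], (-1)),
   ([20, 12, 12, 12, 4, 4, 0, 0], 0),
   ([20, 12, 12, 8, 8, 4, 4, 4], (-1)),
   ([18, 14, 14, 10, 6, 2, 2, 2], (-1)),
   ([18, 14, 10, 10, 6, 6, 6, 6], (-1)),
   ([16, 16, 16, 8, 4, 4, 0, 0], 0),
   ([16, 16, 12, 12, 8, 0, 0, 0], 0),
   ([16, 16, 12, 12, 4, 4, 4, 4], (-1)),
   ([16, 12, 12, 8, 8, 8, 8, 8], (-1)),
   ([26, 6, 6, 6, 6, 6, 2, 2], 1),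
   ([22, 10, 10, 10, 8, 4, 0, 0], 0),
   ([20, 12, 12, 10, 8, 2, 2, 2], (-1)),
   ([18, 14, 14, 8, 6, 4, 4, 4], (-1)),
   ([18, 14, 12, 10, 10, 0, 0, 0], 0),
   ([16, 16, 16, 6, 6, 4, 2, 2], (-1)),
   ([16, 16, 12, 8, 6, 6, 6, 6], (-1)),
   ([27, 5, 5, 5, 5, 5, 3, 1], 1),
   ([25, 7, 7, 7, 7, 5, 3, 3], 1),
   ([23, 9, 9, 9, 9, 3, 1, 1], 1),
   ([21, 11, 11, 11, 7, 3, 1, 1], (-1)),
   ([19, 13, 13, 9, 9, 1, 1, 1], (-1)),
   ([17, 15, 15, 7, 7, 3, 3, 3], (-1)),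
   ([17, 15, 13, 9, 5, 5, 5, 5], (-1)),
   ([15, 15, 13, 7, 7, 7, 7, 7], (-1)),
   ([13, 13, 11, 9, 9, 9, 9, 9], (-1)),
   ([24, 8, 8, 6, 6, 6, 6, 4], (-1)),
   ([22, 10, 10, 6, 6, 6, 6, 6], (-1)),
   ([22, 10, 8, 8, 8, 6, 6, 4], (-1)),
   ([20, 10, 10, 8, 8, 8, 6, 6], (-1)),
   ([18, 14, 14, 12, 2, 0, 0, 0], 0),
   ([16, 16, 14, 12, 2, 2, 2, 0], 0),
   ([16, 14, 14, 14, 4, 2, 0, 0], 0),
   ([29, 3, 3, 1, 1, 1, 1, 1], 1),
   ([23, 9, 9, 7, 7, 5, 5, 5], (-1)),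
   ([23, 9, 7, 7, 7, 7, 7, 3], (-1)),
   ([21, 11, 9, 7, 7, 7, 7, 5], (-1)),
   ([21, 9, 9, 9, 9, 7, 5, 5], (-1)),
   ([19, 9, 9, 9, 9, 9, 7, 7], (-1)),
   ([17, 15, 15, 11, 1, 1, 1, 1], (-1)),
   ([17, 15, 13, 13, 3, 1, 1, 1], 1),
   ([15, 15, 15, 13, 3, 3, 1, 1], (-1)),
   ([24, 14, 6, 4, 4, 4, 2, 2], (-1)),
   ([22, 16, 6, 6, 4, 4, 4, 2], (-1)),
   ([20, 18, 10, 6, 2, 0, 0, 0], 0),
   ([20, 18, 8, 8, 2, 2, 2, 0], 0),
   ([18, 12, 10, 10, 8, 8, 8, 2], 1),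
   ([18, 10, 10, 10, 10, 10, 6, 2], 1),
   ([16, 14, 12, 12, 6, 6, 6, 4], 1),
   ([16, 12, 10, 10, 10, 10, 8, 0], 0),
   ([14, 14, 14, 12, 8, 6, 4, 4], 1),
   ([27, 11, 3, 1, 1, 1, 1, 1], (-1)),
   ([25, 13, 5, 3, 3, 3, 3, 3], (-1)),
   ([23, 15, 7, 5, 3, 3, 3, 3], (-1)),
   ([23, 15, 5, 5, 5, 5, 3, 1], (-1)),
   ([21, 17, 9, 7, 1, 1, 1, 1], (-1)),
   ([21, 17, 5, 5, 5, 5, 5, 3], (-1)),
   ([19, 19, 9, 7, 3, 1, 1, 1], 1),
   ([19, 11, 9, 9, 9, 9, 7, 3], 1),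
   ([17, 13, 9, 9, 9, 9, 9, 1], 1),
   ([17, 11, 11, 11, 9, 9, 7, 1], 1),
   ([15, 15, 13, 11, 7, 5, 5, 5], 1),
   ([15, 13, 13, 13, 7, 7, 5, 3], 1),
   ([28, 8, 2, 2, 2, 2, 0, 0], 0),
   ([24, 12, 6, 6, 6, 4, 4, 2], (-1)),
   ([22, 14, 8, 6, 6, 4, 4, 4], (-1)),
   ([20, 16, 10, 10, 2, 2, 0, 0], 0),
   ([20, 10, 10, 10, 8, 8, 6, 0], 0),
   ([18, 18, 12, 8, 2, 2, 0, 0], 0),
   ([18, 18, 10, 10, 4, 0, 0, 0], 0),
   ([18, 18, 10, 10, 2, 2, 2, 2], (-1)),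
   ([18, 12, 10, 10, 8, 8, 8, 2], (-1)),
   ([16, 14, 14, 12, 6, 4, 4, 2], 1),
   ([25, 11, 5, 5, 5, 5, 3, 3], (-1)),
   ([23, 13, 7, 7, 5, 5, 3, 3], (-1)),
   ([21, 15, 7, 7, 5, 5, 5, 5], (-1)),
   ([21, 9, 9, 9, 9, 7, 7, 1], 1),
   ([19, 17, 11, 9, 3, 1, 1, 1], (-1)),
   ([19, 11, 11, 9, 9, 7, 7, 1], (-1)),
   ([17, 13, 13, 13, 5, 5, 3, 3], 1),
   ([17, 11, 11, 9, 9, 9, 9, 3], (-1)),
   ([15, 15, 15, 11, 5, 5, 3, 3], 1),
   ([15, 15, 13, 13, 7, 3, 3, 3], 1),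
   ([15, 15, 13, 13, 5, 5, 5, 1], 1)]

/-- The set. -/
noncomputable def X : Finset (Fin 8 → ℤ) :=
  (Fintype.piFinset fun _ => Finset.Icc (-29 : ℤ) 29).filter
    (fun v => ∃ τ ∈ Tab, ms v = (τ.1 : Multiset ℕ) ∧ sgn v = τ.2)

/-- The number of vectors with a given list of absolute values (and a given admissible sign of the product). -/
def cnt (μ : List ℕ) : ℕ :=
  (Nat.factorial 8 / (μ.dedup.map (fun x => Nat.factorial (μ.count x))).prod)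
    * (if 0 ∈ μ then 2 ^ (8 - μ.count 0) else 2 ^ 7)

/-- power sums of the squares of a list -/
def pw (a : ℕ) (μ : List ℕ) : ℤ := (μ.map (fun x => (x : ℤ) ^ (2 * a))).sum

/-- power sums of the squares of the coordinates -/
def P (a : ℕ) (v : Fin 8 → ℤ) : ℤ := ∑ i, v i ^ (2 * a)

/-- monomial sums -/
def T (Y : Finset (Fin 8 → ℤ)) (β : Fin 8 → ℕ) : ℤ := ∑ v ∈ Y, ∏ i, v i ^ β i

/-- [CNA].  Counting: arrangements of the list times sign patterns.  (`DomMulAct.stabilizer_card`,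
orbit-stabilizer, or induction; sign patterns with a prescribed product.) -/
def S_CNA : Prop := ∀ (B : ℤ) (μ : List ℕ) (σ : ℤ), μ.length = 8 → (∀ x ∈ μ, (x : ℤ) ≤ B) →
  (σ = 0 ∧ 0 ∈ μ ∨ (σ = 1 ∨ σ = -1) ∧ 0 ∉ μ) →
  (((Fintype.piFinset fun _ : Fin 8 => Finset.Icc (-B) B).filter
    (fun v => ms v = (μ : Multiset ℕ) ∧ sgn v = σ)).card = cnt μ)

/-- [EVL] (: S_CNA -> S_EVL).  A sum over `X` of a function of `(ms v, sgn v)` is a sum over the table (the 104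
lines are different, sorted, so the 104 classes are disjoint; `decide +kernel` for the finite facts). -/
def S_EVL : Prop := ∀ ψ : Multiset ℕ → ℤ → ℤ,
  ∑ v ∈ X, ψ (ms v) (sgn v) = (Tab.map (fun τ => (cnt τ.1 : ℤ) * ψ (τ.1 : Multiset ℕ) τ.2)).sum

/-- The seven equations for a finite set `Y` on the sphere of squared radius `N` (doubled coordinates). -/
def Seven (N : ℤ) (Y : Finset (Fin 8 → ℤ)) : Prop :=
  10 * ∑ v ∈ Y, P 2 v = 3 * N ^ 2 * Y.card ∧ 8 * ∑ v ∈ Y, P 3 v = N ^ 3 * Y.card ∧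
  16 * ∑ v ∈ Y, P 4 v = N ^ 4 * Y.card ∧ 10 * ∑ v ∈ Y, P 2 v ^ 2 = N ^ 4 * Y.card ∧
  256 * ∑ v ∈ Y, P 5 v = 9 * N ^ 5 * Y.card ∧ 64 * ∑ v ∈ Y, P 2 v * P 3 v = 3 * N ^ 5 * Y.card ∧
  ∑ v ∈ Y, ∏ i, v i = 0

/-- [SEV] (: S_EVL -> S_SEV).  `P a v` and `∏ v i = sgn v * ∏ |v i|` are functions of `(ms v, sgn v)`; then seven
kernel computations with the table (104 lines).  `card X = 21168000` as well. -/
def S_SEV : Prop := Seven 864 X ∧ X.card = 21168000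

/-- The symmetries used. -/
def Inv (N : ℤ) (Y : Finset (Fin 8 → ℤ)) : Prop :=
  (∀ v ∈ Y, ∀ π : Equiv.Perm (Fin 8), (fun i => v (π i)) ∈ Y) ∧
  (∀ v ∈ Y, ∀ i j : Fin 8, i ≠ j → (fun l => if l = i ∨ l = j then - v l else v l) ∈ Y) ∧
  (∀ v ∈ Y, ∑ i, v i ^ 2 = N)

/-- [INV].  `X` is invariant, lies in the shell `S_108` (parity, sum divisible by 4: the sum of the coordinates
modulo 4 is determined by the sum of the absolute values and the number of negative signs: for even coordinates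
`-x = x` mod 4 when `x` even; for odd coordinates the product and the sum: `∏ v_i mod 4` determines the parity of
the number of coordinates `= 3 mod 4`), and does not contain the vector `(12, 12, 24, 0, .., 0)` of `S_108`. -/
def S_INV : Prop := Inv 864 X ∧ (∀ v ∈ X, InShell 108 v) ∧ X.Nonempty ∧
  InShell 108 ![12, 12, 24, 0, 0, 0, 0, 0] ∧ ![12, 12, 24, 0, 0, 0, 0, 0] ∉ X

/-- [TSY].  Symmetry of the monomial sums: permutations; zero when the parities of the exponents are mixed. -/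
def S_TSY : Prop := ∀ (N : ℤ) (Y : Finset (Fin 8 → ℤ)), Inv N Y →
  (∀ (β : Fin 8 → ℕ) (π : Equiv.Perm (Fin 8)), T Y (fun i => β (π i)) = T Y β) ∧
  (∀ (β : Fin 8 → ℕ) (i j : Fin 8), Even (β i) → Odd (β j) → T Y β = 0) ∧
  (∀ β : Fin 8 → ℕ, N * T Y β = ∑ i, T Y (fun l => if l = i then β l + 2 else β l))

/-- [TRE] (: S_TSY -> S_TRE).  The seven types of exponents `2γ` of degree 10 (positions `0..4`): from the seven
equations: `∑ P_a = 8 T(2a)`, `∑ P_a P_b = 8 T(2a+2b) + 56 T(2a, 2b)`, and the norm relation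
(third part of [TSY]), for instance `N T(8) = T(10) + 7 T(8,2)`, `N T(4,4) = 2 T(6,4) + 6 T(4,4,2)`,
`N T(2,2,2,2) = 4 T(4,2,2,2) + 4 T(2,2,2,2,2)`. -/
def S_TRE : Prop := ∀ (N : ℤ) (Y : Finset (Fin 8 → ℤ)), Inv N Y → Seven N Y →
  215040 * T Y ![10, 0, 0, 0, 0, 0, 0, 0] = 945 * N ^ 5 * Y.card ∧
  215040 * T Y ![8, 2, 0, 0, 0, 0, 0, 0] = 105 * N ^ 5 * Y.card ∧
  215040 * T Y ![6, 4, 0, 0, 0, 0, 0, 0] = 45 * N ^ 5 * Y.card ∧
  215040 * T Y ![6, 2, 2, 0, 0, 0, 0, 0] = 15 * N ^ 5 * Y.card ∧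
  215040 * T Y ![4, 4, 2, 0, 0, 0, 0, 0] = 9 * N ^ 5 * Y.card ∧
  215040 * T Y ![4, 2, 2, 2, 0, 0, 0, 0] = 3 * N ^ 5 * Y.card ∧
  215040 * T Y ![2, 2, 2, 2, 2, 0, 0, 0] = N ^ 5 * Y.card

/-- [TEN] (: S_TSY -> S_TRE -> S_TEN).  All monomials of degree 10.  `Tuple.sort`: `γ ∘ π` is monotone; a monotone
`γ : Fin 8 → ℕ` with sum 5 is one of seven.  All exponents odd: `β` is a permutation of `(3, 1, .., 1)`, and
`N ∑ ∏ v_i = 8 T(3,1,..,1)` by [TSY]. -/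
def S_TEN : Prop := ∀ (N : ℤ) (Y : Finset (Fin 8 → ℤ)), Inv N Y → Seven N Y →
  (∀ γ : Fin 8 → ℕ, ∑ i, γ i = 5 →
    215040 * T Y (fun i => 2 * γ i) = (∏ i, (Nat.doubleFactorial (2 * γ i - 1) : ℤ)) * N ^ 5 * Y.card) ∧
  (∀ β : Fin 8 → ℕ, ∑ i, β i = 10 → (∃ i, Odd (β i)) → T Y β = 0)

/-- [SPM].  The monomial integrals of degree 10 over the sphere: compare the coefficients of `z^β` in
`F 10 z = ‖z‖^10 F 10 (e 0)` (`F_eq`; both sides are polynomials in `z`: `Finset.sum_pow_eq_sum_piAntidiag` for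
`(∑ z_i u_i)^10` and `(∑ z_i^2)^5`, then `MvPolynomial.funext`), and `2048 F 10 (e 0) = 9 vol`
(`S_SPH` of relay ED, `sc 5 = 45`). -/
def S_SPM : Prop :=
  (∀ γ : Fin 8 → ℕ, ∑ i, γ i = 5 →
    215040 * ∫ u : S7, ∏ i, ((u : E) i) ^ (2 * γ i) ∂sg
      = (∏ i, (Nat.doubleFactorial (2 * γ i - 1) : ℝ)) * sg.real Set.univ) ∧
  (∀ β : Fin 8 → ℕ, (∃ i, Odd (β i)) → ∫ u : S7, ∏ i, ((u : E) i) ^ (β i) ∂sg = 0)

/-- [LAM] (: S_SPM -> S_LAM).  `Λ(p) = (∑_Y p(v/2)) vol - |Y| ∫ p(√(2m) u)`; linear; `Λ(p ∑ x_i^2) = 2m Λ(p)`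
(`m ≥ 1`), so the monomials of degree 10 give all even degrees `≤ 10`; in odd degrees both terms vanish
(`Y = -Y` from `Inv`; [SPM], second part). -/
def S_LAM : Prop := ∀ (m : ℕ) (Y : Finset (Fin 8 → ℤ)), 1 ≤ m → Inv (8 * (m : ℤ)) Y →
  (∀ γ : Fin 8 → ℕ, ∑ i, γ i = 5 →
    215040 * T Y (fun i => 2 * γ i)
      = (∏ i, (Nat.doubleFactorial (2 * γ i - 1) : ℤ)) * (8 * (m : ℤ)) ^ 5 * Y.card) →
  (∀ β : Fin 8 → ℕ, ∑ i, β i = 10 → (∃ i, Odd (β i)) → T Y β = 0) →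
  Cubature 11 m Y (fun _ => 1)

/-- [SIM].  Multiples.  `k = a² + b² + c² + d²`; `σ v = a v + b I v + c J v + d K v` on `ℤ^8`, `I, J, K` signed
permutations of the coordinates in two blocks of four (left multiplication by the quaternions `i, j, k` in both
blocks; check that they preserve `IsE8`: same parity, and the sum of the coordinates changes by
`2 × (sum of some coordinates)`; an even number of signs in each block), `⟨σ u, σ v⟩ = k ⟨u, v⟩`; so `σ` is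
injective, maps `S_m` to `S_{mk}`; and `σ/√k` is an isometry of `E`, so the integral does not change
(`integral_rot`).  `Y' = Y.image σ`. -/
def S_SIM : Prop := ∀ (t m k : ℕ) (Y : Finset (Fin 8 → ℤ)) (u : Fin 8 → ℤ), 1 ≤ k →
  (∀ v ∈ Y, InShell m v) → IsDesign t m Y → InShell m u → u ∉ Y →
  ∃ (Y' : Finset (Fin 8 → ℤ)) (u' : Fin 8 → ℤ), (∀ v ∈ Y', InShell (m * k) v) ∧ IsDesign t (m * k) Y' ∧
    Y'.card = Y.card ∧ InShell (m * k) u' ∧ u' ∉ Y'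

/-- The final theorem. -/
def S_FIN : Prop := ∀ k : ℕ, 1 ≤ k → ∃ (Y : Finset (Fin 8 → ℤ)) (u : Fin 8 → ℤ),
  (∀ v ∈ Y, InShell (108 * k) v) ∧ IsDesign 11 (108 * k) Y ∧ Y.card = 21168000 ∧
    InShell (108 * k) u ∧ u ∉ Y

theorem fin_of (hS : S_SEV) (hI : S_INV) (hT : S_TEN) (hL : S_LAM) (hM : S_SIM) : S_FIN := by
  intro k hk
  obtain ⟨h7, hc⟩ := hS
  obtain ⟨h1, h2, h3, h4, h5⟩ := hI
  have h6 := hT 864 X h1 h7
  have e : 8 * ((108 : ℕ) : ℤ) = 864 := rfl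
  have h8 : Cubature 11 108 X (fun _ => 1) :=
    hL 108 X (by omega) (e ▸ h1) (e ▸ h6.1) h6.2
  obtain ⟨Y', u', g1, g2, g3, g4, g5⟩ := hM 11 108 k X _ hk h2 ⟨h3, h8⟩ h4 h5
  exact ⟨Y', u', g1, g2, by rw [g3, hc], g4, g5⟩

end Pool.Agent.Helper17K9.EX
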