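import Pool.Agent.Helper17K9.EX.Stm

set_option autoImplicit false

namespace Pool.Agent.Helper17K9.EX

open Pool.Agent.Q10.E8

namespace TreL

/-- consequences of `S_TSY` for one set -/
def H (N : ℤ) (Y : Finset (Fin 8 → ℤ)) : Prop :=
  (∀ (β : Fin 8 → ℕ) (π : Equiv.Perm (Fin 8)), T Y (fun i => β (π i)) = T Y β) ∧
  (∀ (β : Fin 8 → ℕ) (i j : Fin 8), Even (β i) → Odd (β j) → T Y β = 0) ∧
  (∀ β : Fin 8 → ℕ, N * T Y β = ∑ i, T Y (fun l => if l = i then β l + 2 else β l))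

theorem Tms {Y : Finset (Fin 8 → ℤ)}
    (hT : ∀ (β : Fin 8 → ℕ) (π : Equiv.Perm (Fin 8)), T Y (fun i => β (π i)) = T Y β)
    (β β' : Fin 8 → ℕ) (h : (List.ofFn β).Perm (List.ofFn β')) : T Y β = T Y β' := by
  have h1 : List.ofFn (β ∘ Tuple.sort β) = List.ofFn (β' ∘ Tuple.sort β') := by
    apply List.Perm.eq_of_sortedLE
    · exact (Tuple.monotone_sort β).sortedLE_ofFn
    · exact (Tuple.monotone_sort β').sortedLE_ofFn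
    · exact ((Tuple.sort β).ofFn_comp_perm β).trans (h.trans ((Tuple.sort β').ofFn_comp_perm β').symm)
  have h2 := List.ofFn_injective h1
  have h3 := hT β (Tuple.sort β)
  have h4 := hT β' (Tuple.sort β')
  have h5 : (fun i => β (Tuple.sort β i)) = (fun i => β' (Tuple.sort β' i)) := h2
  rw [← h3, ← h4, h5]

theorem rel_0 {N : ℤ} {Y : Finset (Fin 8 → ℤ)} (h : H N Y) :
    N * T Y ![0, 0, 0, 0, 0, 0, 0, 0] = 8 * T Y ![2, 0, 0, 0, 0, 0, 0, 0] := by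
    rw [(h.2.2 ![0, 0, 0, 0, 0, 0, 0, 0]), Fin.sum_univ_eight,
      Tms h.1 (fun l => if l = 0 then (![0, 0, 0, 0, 0, 0, 0, 0] : Fin 8 → ℕ) l + 2 else (![0, 0, 0, 0, 0, 0, 0, 0] : Fin 8 → ℕ) l) ![2, 0, 0, 0, 0, 0, 0, 0] (by decide +kernel),
      Tms h.1 (fun l => if l = 1 then (![0, 0, 0, 0, 0, 0, 0, 0] : Fin 8 → ℕ) l + 2 else (![0, 0, 0, 0, 0, 0, 0, 0] : Fin 8 → ℕ) l) ![2, 0, 0, 0, 0, 0, 0, 0] (by decide +kernel),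
      Tms h.1 (fun l => if l = 2 then (![0, 0, 0, 0, 0, 0, 0, 0] : Fin 8 → ℕ) l + 2 else (![0, 0, 0, 0, 0, 0, 0, 0] : Fin 8 → ℕ) l) ![2, 0, 0, 0, 0, 0, 0, 0] (by decide +kernel),
      Tms h.1 (fun l => if l = 3 then (![0, 0, 0, 0, 0, 0, 0, 0] : Fin 8 → ℕ) l + 2 else (![0, 0, 0, 0, 0, 0, 0, 0] : Fin 8 → ℕ) l) ![2, 0, 0, 0, 0, 0, 0, 0] (by decide +kernel),
      Tms h.1 (fun l => if l = 4 then (![0, 0, 0, 0, 0, 0, 0, 0] : Fin 8 → ℕ) l + 2 else (![0, 0, 0, 0, 0, 0, 0, 0] : Fin 8 → ℕ) l) ![2, 0, 0, 0, 0, 0, 0, 0] (by decide +kernel),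
      Tms h.1 (fun l => if l = 5 then (![0, 0, 0, 0, 0, 0, 0, 0] : Fin 8 → ℕ) l + 2 else (![0, 0, 0, 0, 0, 0, 0, 0] : Fin 8 → ℕ) l) ![2, 0, 0, 0, 0, 0, 0, 0] (by decide +kernel),
      Tms h.1 (fun l => if l = 6 then (![0, 0, 0, 0, 0, 0, 0, 0] : Fin 8 → ℕ) l + 2 else (![0, 0, 0, 0, 0, 0, 0, 0] : Fin 8 → ℕ) l) ![2, 0, 0, 0, 0, 0, 0, 0] (by decide +kernel),
      Tms h.1 (fun l => if l = 7 then (![0, 0, 0, 0, 0, 0, 0, 0] : Fin 8 → ℕ) l + 2 else (![0, 0, 0, 0, 0, 0, 0, 0] : Fin 8 → ℕ) l) ![2, 0, 0, 0, 0, 0, 0, 0] (by decide +kernel)]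
    ring

theorem rel_2 {N : ℤ} {Y : Finset (Fin 8 → ℤ)} (h : H N Y) :
    N * T Y ![2, 0, 0, 0, 0, 0, 0, 0] = 1 * T Y ![4, 0, 0, 0, 0, 0, 0, 0] + 7 * T Y ![2, 2, 0, 0, 0, 0, 0, 0] := by
    rw [(h.2.2 ![2, 0, 0, 0, 0, 0, 0, 0]), Fin.sum_univ_eight,
      Tms h.1 (fun l => if l = 0 then (![2, 0, 0, 0, 0, 0, 0, 0] : Fin 8 → ℕ) l + 2 else (![2, 0, 0, 0, 0, 0, 0, 0] : Fin 8 → ℕ) l) ![4, 0, 0, 0, 0, 0, 0, 0] (by decide +kernel),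
      Tms h.1 (fun l => if l = 1 then (![2, 0, 0, 0, 0, 0, 0, 0] : Fin 8 → ℕ) l + 2 else (![2, 0, 0, 0, 0, 0, 0, 0] : Fin 8 → ℕ) l) ![2, 2, 0, 0, 0, 0, 0, 0] (by decide +kernel),
      Tms h.1 (fun l => if l = 2 then (![2, 0, 0, 0, 0, 0, 0, 0] : Fin 8 → ℕ) l + 2 else (![2, 0, 0, 0, 0, 0, 0, 0] : Fin 8 → ℕ) l) ![2, 2, 0, 0, 0, 0, 0, 0] (by decide +kernel),
      Tms h.1 (fun l => if l = 3 then (![2, 0, 0, 0, 0, 0, 0, 0] : Fin 8 → ℕ) l + 2 else (![2, 0, 0, 0, 0, 0, 0, 0] : Fin 8 → ℕ) l) ![2, 2, 0, 0, 0, 0, 0, 0] (by decide +kernel),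
      Tms h.1 (fun l => if l = 4 then (![2, 0, 0, 0, 0, 0, 0, 0] : Fin 8 → ℕ) l + 2 else (![2, 0, 0, 0, 0, 0, 0, 0] : Fin 8 → ℕ) l) ![2, 2, 0, 0, 0, 0, 0, 0] (by decide +kernel),
      Tms h.1 (fun l => if l = 5 then (![2, 0, 0, 0, 0, 0, 0, 0] : Fin 8 → ℕ) l + 2 else (![2, 0, 0, 0, 0, 0, 0, 0] : Fin 8 → ℕ) l) ![2, 2, 0, 0, 0, 0, 0, 0] (by decide +kernel),
      Tms h.1 (fun l => if l = 6 then (![2, 0, 0, 0, 0, 0, 0, 0] : Fin 8 → ℕ) l + 2 else (![2, 0, 0, 0, 0, 0, 0, 0] : Fin 8 → ℕ) l) ![2, 2, 0, 0, 0, 0, 0, 0] (by decide +kernel),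
      Tms h.1 (fun l => if l = 7 then (![2, 0, 0, 0, 0, 0, 0, 0] : Fin 8 → ℕ) l + 2 else (![2, 0, 0, 0, 0, 0, 0, 0] : Fin 8 → ℕ) l) ![2, 2, 0, 0, 0, 0, 0, 0] (by decide +kernel)]
    ring

theorem rel_4 {N : ℤ} {Y : Finset (Fin 8 → ℤ)} (h : H N Y) :
    N * T Y ![4, 0, 0, 0, 0, 0, 0, 0] = 1 * T Y ![6, 0, 0, 0, 0, 0, 0, 0] + 7 * T Y ![4, 2, 0, 0, 0, 0, 0, 0] := by
    rw [(h.2.2 ![4, 0, 0, 0, 0, 0, 0, 0]), Fin.sum_univ_eight,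
      Tms h.1 (fun l => if l = 0 then (![4, 0, 0, 0, 0, 0, 0, 0] : Fin 8 → ℕ) l + 2 else (![4, 0, 0, 0, 0, 0, 0, 0] : Fin 8 → ℕ) l) ![6, 0, 0, 0, 0, 0, 0, 0] (by decide +kernel),
      Tms h.1 (fun l => if l = 1 then (![4, 0, 0, 0, 0, 0, 0, 0] : Fin 8 → ℕ) l + 2 else (![4, 0, 0, 0, 0, 0, 0, 0] : Fin 8 → ℕ) l) ![4, 2, 0, 0, 0, 0, 0, 0] (by decide +kernel),
      Tms h.1 (fun l => if l = 2 then (![4, 0, 0, 0, 0, 0, 0, 0] : Fin 8 → ℕ) l + 2 else (![4, 0, 0, 0, 0, 0, 0, 0] : Fin 8 → ℕ) l) ![4, 2, 0, 0, 0, 0, 0, 0] (by decide +kernel),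
      Tms h.1 (fun l => if l = 3 then (![4, 0, 0, 0, 0, 0, 0, 0] : Fin 8 → ℕ) l + 2 else (![4, 0, 0, 0, 0, 0, 0, 0] : Fin 8 → ℕ) l) ![4, 2, 0, 0, 0, 0, 0, 0] (by decide +kernel),
      Tms h.1 (fun l => if l = 4 then (![4, 0, 0, 0, 0, 0, 0, 0] : Fin 8 → ℕ) l + 2 else (![4, 0, 0, 0, 0, 0, 0, 0] : Fin 8 → ℕ) l) ![4, 2, 0, 0, 0, 0, 0, 0] (by decide +kernel),
      Tms h.1 (fun l => if l = 5 then (![4, 0, 0, 0, 0, 0, 0, 0] : Fin 8 → ℕ) l + 2 else (![4, 0, 0, 0, 0, 0, 0, 0] : Fin 8 → ℕ) l) ![4, 2, 0, 0, 0, 0, 0, 0] (by decide +kernel),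
      Tms h.1 (fun l => if l = 6 then (![4, 0, 0, 0, 0, 0, 0, 0] : Fin 8 → ℕ) l + 2 else (![4, 0, 0, 0, 0, 0, 0, 0] : Fin 8 → ℕ) l) ![4, 2, 0, 0, 0, 0, 0, 0] (by decide +kernel),
      Tms h.1 (fun l => if l = 7 then (![4, 0, 0, 0, 0, 0, 0, 0] : Fin 8 → ℕ) l + 2 else (![4, 0, 0, 0, 0, 0, 0, 0] : Fin 8 → ℕ) l) ![4, 2, 0, 0, 0, 0, 0, 0] (by decide +kernel)]
    ring

theorem rel_2_2 {N : ℤ} {Y : Finset (Fin 8 → ℤ)} (h : H N Y) :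
    N * T Y ![2, 2, 0, 0, 0, 0, 0, 0] = 2 * T Y ![4, 2, 0, 0, 0, 0, 0, 0] + 6 * T Y ![2, 2, 2, 0, 0, 0, 0, 0] := by
    rw [(h.2.2 ![2, 2, 0, 0, 0, 0, 0, 0]), Fin.sum_univ_eight,
      Tms h.1 (fun l => if l = 0 then (![2, 2, 0, 0, 0, 0, 0, 0] : Fin 8 → ℕ) l + 2 else (![2, 2, 0, 0, 0, 0, 0, 0] : Fin 8 → ℕ) l) ![4, 2, 0, 0, 0, 0, 0, 0] (by decide +kernel),
      Tms h.1 (fun l => if l = 1 then (![2, 2, 0, 0, 0, 0, 0, 0] : Fin 8 → ℕ) l + 2 else (![2, 2, 0, 0, 0, 0, 0, 0] : Fin 8 → ℕ) l) ![4, 2, 0, 0, 0, 0, 0, 0] (by decide +kernel),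
      Tms h.1 (fun l => if l = 2 then (![2, 2, 0, 0, 0, 0, 0, 0] : Fin 8 → ℕ) l + 2 else (![2, 2, 0, 0, 0, 0, 0, 0] : Fin 8 → ℕ) l) ![2, 2, 2, 0, 0, 0, 0, 0] (by decide +kernel),
      Tms h.1 (fun l => if l = 3 then (![2, 2, 0, 0, 0, 0, 0, 0] : Fin 8 → ℕ) l + 2 else (![2, 2, 0, 0, 0, 0, 0, 0] : Fin 8 → ℕ) l) ![2, 2, 2, 0, 0, 0, 0, 0] (by decide +kernel),
      Tms h.1 (fun l => if l = 4 then (![2, 2, 0, 0, 0, 0, 0, 0] : Fin 8 → ℕ) l + 2 else (![2, 2, 0, 0, 0, 0, 0, 0] : Fin 8 → ℕ) l) ![2, 2, 2, 0, 0, 0, 0, 0] (by decide +kernel),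
      Tms h.1 (fun l => if l = 5 then (![2, 2, 0, 0, 0, 0, 0, 0] : Fin 8 → ℕ) l + 2 else (![2, 2, 0, 0, 0, 0, 0, 0] : Fin 8 → ℕ) l) ![2, 2, 2, 0, 0, 0, 0, 0] (by decide +kernel),
      Tms h.1 (fun l => if l = 6 then (![2, 2, 0, 0, 0, 0, 0, 0] : Fin 8 → ℕ) l + 2 else (![2, 2, 0, 0, 0, 0, 0, 0] : Fin 8 → ℕ) l) ![2, 2, 2, 0, 0, 0, 0, 0] (by decide +kernel),
      Tms h.1 (fun l => if l = 7 then (![2, 2, 0, 0, 0, 0, 0, 0] : Fin 8 → ℕ) l + 2 else (![2, 2, 0, 0, 0, 0, 0, 0] : Fin 8 → ℕ) l) ![2, 2, 2, 0, 0, 0, 0, 0] (by decide +kernel)]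
    ring

theorem rel_6 {N : ℤ} {Y : Finset (Fin 8 → ℤ)} (h : H N Y) :
    N * T Y ![6, 0, 0, 0, 0, 0, 0, 0] = 1 * T Y ![8, 0, 0, 0, 0, 0, 0, 0] + 7 * T Y ![6, 2, 0, 0, 0, 0, 0, 0] := by
    rw [(h.2.2 ![6, 0, 0, 0, 0, 0, 0, 0]), Fin.sum_univ_eight,
      Tms h.1 (fun l => if l = 0 then (![6, 0, 0, 0, 0, 0, 0, 0] : Fin 8 → ℕ) l + 2 else (![6, 0, 0, 0, 0, 0, 0, 0] : Fin 8 → ℕ) l) ![8, 0, 0, 0, 0, 0, 0, 0] (by decide +kernel),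
      Tms h.1 (fun l => if l = 1 then (![6, 0, 0, 0, 0, 0, 0, 0] : Fin 8 → ℕ) l + 2 else (![6, 0, 0, 0, 0, 0, 0, 0] : Fin 8 → ℕ) l) ![6, 2, 0, 0, 0, 0, 0, 0] (by decide +kernel),
      Tms h.1 (fun l => if l = 2 then (![6, 0, 0, 0, 0, 0, 0, 0] : Fin 8 → ℕ) l + 2 else (![6, 0, 0, 0, 0, 0, 0, 0] : Fin 8 → ℕ) l) ![6, 2, 0, 0, 0, 0, 0, 0] (by decide +kernel),
      Tms h.1 (fun l => if l = 3 then (![6, 0, 0, 0, 0, 0, 0, 0] : Fin 8 → ℕ) l + 2 else (![6, 0, 0, 0, 0, 0, 0, 0] : Fin 8 → ℕ) l) ![6, 2, 0, 0, 0, 0, 0, 0] (by decide +kernel),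
      Tms h.1 (fun l => if l = 4 then (![6, 0, 0, 0, 0, 0, 0, 0] : Fin 8 → ℕ) l + 2 else (![6, 0, 0, 0, 0, 0, 0, 0] : Fin 8 → ℕ) l) ![6, 2, 0, 0, 0, 0, 0, 0] (by decide +kernel),
      Tms h.1 (fun l => if l = 5 then (![6, 0, 0, 0, 0, 0, 0, 0] : Fin 8 → ℕ) l + 2 else (![6, 0, 0, 0, 0, 0, 0, 0] : Fin 8 → ℕ) l) ![6, 2, 0, 0, 0, 0, 0, 0] (by decide +kernel),
      Tms h.1 (fun l => if l = 6 then (![6, 0, 0, 0, 0, 0, 0, 0] : Fin 8 → ℕ) l + 2 else (![6, 0, 0, 0, 0, 0, 0, 0] : Fin 8 → ℕ) l) ![6, 2, 0, 0, 0, 0, 0, 0] (by decide +kernel),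
      Tms h.1 (fun l => if l = 7 then (![6, 0, 0, 0, 0, 0, 0, 0] : Fin 8 → ℕ) l + 2 else (![6, 0, 0, 0, 0, 0, 0, 0] : Fin 8 → ℕ) l) ![6, 2, 0, 0, 0, 0, 0, 0] (by decide +kernel)]
    ring

theorem rel_4_2 {N : ℤ} {Y : Finset (Fin 8 → ℤ)} (h : H N Y) :
    N * T Y ![4, 2, 0, 0, 0, 0, 0, 0] = 1 * T Y ![6, 2, 0, 0, 0, 0, 0, 0] + 1 * T Y ![4, 4, 0, 0, 0, 0, 0, 0] + 6 * T Y ![4, 2, 2, 0, 0, 0, 0, 0] := by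
    rw [(h.2.2 ![4, 2, 0, 0, 0, 0, 0, 0]), Fin.sum_univ_eight,
      Tms h.1 (fun l => if l = 0 then (![4, 2, 0, 0, 0, 0, 0, 0] : Fin 8 → ℕ) l + 2 else (![4, 2, 0, 0, 0, 0, 0, 0] : Fin 8 → ℕ) l) ![6, 2, 0, 0, 0, 0, 0, 0] (by decide +kernel),
      Tms h.1 (fun l => if l = 1 then (![4, 2, 0, 0, 0, 0, 0, 0] : Fin 8 → ℕ) l + 2 else (![4, 2, 0, 0, 0, 0, 0, 0] : Fin 8 → ℕ) l) ![4, 4, 0, 0, 0, 0, 0, 0] (by decide +kernel),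
      Tms h.1 (fun l => if l = 2 then (![4, 2, 0, 0, 0, 0, 0, 0] : Fin 8 → ℕ) l + 2 else (![4, 2, 0, 0, 0, 0, 0, 0] : Fin 8 → ℕ) l) ![4, 2, 2, 0, 0, 0, 0, 0] (by decide +kernel),
      Tms h.1 (fun l => if l = 3 then (![4, 2, 0, 0, 0, 0, 0, 0] : Fin 8 → ℕ) l + 2 else (![4, 2, 0, 0, 0, 0, 0, 0] : Fin 8 → ℕ) l) ![4, 2, 2, 0, 0, 0, 0, 0] (by decide +kernel),
      Tms h.1 (fun l => if l = 4 then (![4, 2, 0, 0, 0, 0, 0, 0] : Fin 8 → ℕ) l + 2 else (![4, 2, 0, 0, 0, 0, 0, 0] : Fin 8 → ℕ) l) ![4, 2, 2, 0, 0, 0, 0, 0] (by decide +kernel),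
      Tms h.1 (fun l => if l = 5 then (![4, 2, 0, 0, 0, 0, 0, 0] : Fin 8 → ℕ) l + 2 else (![4, 2, 0, 0, 0, 0, 0, 0] : Fin 8 → ℕ) l) ![4, 2, 2, 0, 0, 0, 0, 0] (by decide +kernel),
      Tms h.1 (fun l => if l = 6 then (![4, 2, 0, 0, 0, 0, 0, 0] : Fin 8 → ℕ) l + 2 else (![4, 2, 0, 0, 0, 0, 0, 0] : Fin 8 → ℕ) l) ![4, 2, 2, 0, 0, 0, 0, 0] (by decide +kernel),
      Tms h.1 (fun l => if l = 7 then (![4, 2, 0, 0, 0, 0, 0, 0] : Fin 8 → ℕ) l + 2 else (![4, 2, 0, 0, 0, 0, 0, 0] : Fin 8 → ℕ) l) ![4, 2, 2, 0, 0, 0, 0, 0] (by decide +kernel)]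
    ring

theorem rel_2_2_2 {N : ℤ} {Y : Finset (Fin 8 → ℤ)} (h : H N Y) :
    N * T Y ![2, 2, 2, 0, 0, 0, 0, 0] = 3 * T Y ![4, 2, 2, 0, 0, 0, 0, 0] + 5 * T Y ![2, 2, 2, 2, 0, 0, 0, 0] := by
    rw [(h.2.2 ![2, 2, 2, 0, 0, 0, 0, 0]), Fin.sum_univ_eight,
      Tms h.1 (fun l => if l = 0 then (![2, 2, 2, 0, 0, 0, 0, 0] : Fin 8 → ℕ) l + 2 else (![2, 2, 2, 0, 0, 0, 0, 0] : Fin 8 → ℕ) l) ![4, 2, 2, 0, 0, 0, 0, 0] (by decide +kernel),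
      Tms h.1 (fun l => if l = 1 then (![2, 2, 2, 0, 0, 0, 0, 0] : Fin 8 → ℕ) l + 2 else (![2, 2, 2, 0, 0, 0, 0, 0] : Fin 8 → ℕ) l) ![4, 2, 2, 0, 0, 0, 0, 0] (by decide +kernel),
      Tms h.1 (fun l => if l = 2 then (![2, 2, 2, 0, 0, 0, 0, 0] : Fin 8 → ℕ) l + 2 else (![2, 2, 2, 0, 0, 0, 0, 0] : Fin 8 → ℕ) l) ![4, 2, 2, 0, 0, 0, 0, 0] (by decide +kernel),
      Tms h.1 (fun l => if l = 3 then (![2, 2, 2, 0, 0, 0, 0, 0] : Fin 8 → ℕ) l + 2 else (![2, 2, 2, 0, 0, 0, 0, 0] : Fin 8 → ℕ) l) ![2, 2, 2, 2, 0, 0, 0, 0] (by decide +kernel),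
      Tms h.1 (fun l => if l = 4 then (![2, 2, 2, 0, 0, 0, 0, 0] : Fin 8 → ℕ) l + 2 else (![2, 2, 2, 0, 0, 0, 0, 0] : Fin 8 → ℕ) l) ![2, 2, 2, 2, 0, 0, 0, 0] (by decide +kernel),
      Tms h.1 (fun l => if l = 5 then (![2, 2, 2, 0, 0, 0, 0, 0] : Fin 8 → ℕ) l + 2 else (![2, 2, 2, 0, 0, 0, 0, 0] : Fin 8 → ℕ) l) ![2, 2, 2, 2, 0, 0, 0, 0] (by decide +kernel),
      Tms h.1 (fun l => if l = 6 then (![2, 2, 2, 0, 0, 0, 0, 0] : Fin 8 → ℕ) l + 2 else (![2, 2, 2, 0, 0, 0, 0, 0] : Fin 8 → ℕ) l) ![2, 2, 2, 2, 0, 0, 0, 0] (by decide +kernel),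
      Tms h.1 (fun l => if l = 7 then (![2, 2, 2, 0, 0, 0, 0, 0] : Fin 8 → ℕ) l + 2 else (![2, 2, 2, 0, 0, 0, 0, 0] : Fin 8 → ℕ) l) ![2, 2, 2, 2, 0, 0, 0, 0] (by decide +kernel)]
    ring

theorem rel_8 {N : ℤ} {Y : Finset (Fin 8 → ℤ)} (h : H N Y) :
    N * T Y ![8, 0, 0, 0, 0, 0, 0, 0] = 1 * T Y ![10, 0, 0, 0, 0, 0, 0, 0] + 7 * T Y ![8, 2, 0, 0, 0, 0, 0, 0] := by
    rw [(h.2.2 ![8, 0, 0, 0, 0, 0, 0, 0]), Fin.sum_univ_eight,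
      Tms h.1 (fun l => if l = 0 then (![8, 0, 0, 0, 0, 0, 0, 0] : Fin 8 → ℕ) l + 2 else (![8, 0, 0, 0, 0, 0, 0, 0] : Fin 8 → ℕ) l) ![10, 0, 0, 0, 0, 0, 0, 0] (by decide +kernel),
      Tms h.1 (fun l => if l = 1 then (![8, 0, 0, 0, 0, 0, 0, 0] : Fin 8 → ℕ) l + 2 else (![8, 0, 0, 0, 0, 0, 0, 0] : Fin 8 → ℕ) l) ![8, 2, 0, 0, 0, 0, 0, 0] (by decide +kernel),
      Tms h.1 (fun l => if l = 2 then (![8, 0, 0, 0, 0, 0, 0, 0] : Fin 8 → ℕ) l + 2 else (![8, 0, 0, 0, 0, 0, 0, 0] : Fin 8 → ℕ) l) ![8, 2, 0, 0, 0, 0, 0, 0] (by decide +kernel),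
      Tms h.1 (fun l => if l = 3 then (![8, 0, 0, 0, 0, 0, 0, 0] : Fin 8 → ℕ) l + 2 else (![8, 0, 0, 0, 0, 0, 0, 0] : Fin 8 → ℕ) l) ![8, 2, 0, 0, 0, 0, 0, 0] (by decide +kernel),
      Tms h.1 (fun l => if l = 4 then (![8, 0, 0, 0, 0, 0, 0, 0] : Fin 8 → ℕ) l + 2 else (![8, 0, 0, 0, 0, 0, 0, 0] : Fin 8 → ℕ) l) ![8, 2, 0, 0, 0, 0, 0, 0] (by decide +kernel),
      Tms h.1 (fun l => if l = 5 then (![8, 0, 0, 0, 0, 0, 0, 0] : Fin 8 → ℕ) l + 2 else (![8, 0, 0, 0, 0, 0, 0, 0] : Fin 8 → ℕ) l) ![8, 2, 0, 0, 0, 0, 0, 0] (by decide +kernel),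
      Tms h.1 (fun l => if l = 6 then (![8, 0, 0, 0, 0, 0, 0, 0] : Fin 8 → ℕ) l + 2 else (![8, 0, 0, 0, 0, 0, 0, 0] : Fin 8 → ℕ) l) ![8, 2, 0, 0, 0, 0, 0, 0] (by decide +kernel),
      Tms h.1 (fun l => if l = 7 then (![8, 0, 0, 0, 0, 0, 0, 0] : Fin 8 → ℕ) l + 2 else (![8, 0, 0, 0, 0, 0, 0, 0] : Fin 8 → ℕ) l) ![8, 2, 0, 0, 0, 0, 0, 0] (by decide +kernel)]
    ring

theorem rel_6_2 {N : ℤ} {Y : Finset (Fin 8 → ℤ)} (h : H N Y) :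
    N * T Y ![6, 2, 0, 0, 0, 0, 0, 0] = 1 * T Y ![8, 2, 0, 0, 0, 0, 0, 0] + 1 * T Y ![6, 4, 0, 0, 0, 0, 0, 0] + 6 * T Y ![6, 2, 2, 0, 0, 0, 0, 0] := by
    rw [(h.2.2 ![6, 2, 0, 0, 0, 0, 0, 0]), Fin.sum_univ_eight,
      Tms h.1 (fun l => if l = 0 then (![6, 2, 0, 0, 0, 0, 0, 0] : Fin 8 → ℕ) l + 2 else (![6, 2, 0, 0, 0, 0, 0, 0] : Fin 8 → ℕ) l) ![8, 2, 0, 0, 0, 0, 0, 0] (by decide +kernel),
      Tms h.1 (fun l => if l = 1 then (![6, 2, 0, 0, 0, 0, 0, 0] : Fin 8 → ℕ) l + 2 else (![6, 2, 0, 0, 0, 0, 0, 0] : Fin 8 → ℕ) l) ![6, 4, 0, 0, 0, 0, 0, 0] (by decide +kernel),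
      Tms h.1 (fun l => if l = 2 then (![6, 2, 0, 0, 0, 0, 0, 0] : Fin 8 → ℕ) l + 2 else (![6, 2, 0, 0, 0, 0, 0, 0] : Fin 8 → ℕ) l) ![6, 2, 2, 0, 0, 0, 0, 0] (by decide +kernel),
      Tms h.1 (fun l => if l = 3 then (![6, 2, 0, 0, 0, 0, 0, 0] : Fin 8 → ℕ) l + 2 else (![6, 2, 0, 0, 0, 0, 0, 0] : Fin 8 → ℕ) l) ![6, 2, 2, 0, 0, 0, 0, 0] (by decide +kernel),
      Tms h.1 (fun l => if l = 4 then (![6, 2, 0, 0, 0, 0, 0, 0] : Fin 8 → ℕ) l + 2 else (![6, 2, 0, 0, 0, 0, 0, 0] : Fin 8 → ℕ) l) ![6, 2, 2, 0, 0, 0, 0, 0] (by decide +kernel),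
      Tms h.1 (fun l => if l = 5 then (![6, 2, 0, 0, 0, 0, 0, 0] : Fin 8 → ℕ) l + 2 else (![6, 2, 0, 0, 0, 0, 0, 0] : Fin 8 → ℕ) l) ![6, 2, 2, 0, 0, 0, 0, 0] (by decide +kernel),
      Tms h.1 (fun l => if l = 6 then (![6, 2, 0, 0, 0, 0, 0, 0] : Fin 8 → ℕ) l + 2 else (![6, 2, 0, 0, 0, 0, 0, 0] : Fin 8 → ℕ) l) ![6, 2, 2, 0, 0, 0, 0, 0] (by decide +kernel),
      Tms h.1 (fun l => if l = 7 then (![6, 2, 0, 0, 0, 0, 0, 0] : Fin 8 → ℕ) l + 2 else (![6, 2, 0, 0, 0, 0, 0, 0] : Fin 8 → ℕ) l) ![6, 2, 2, 0, 0, 0, 0, 0] (by decide +kernel)]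
    ring

theorem rel_4_4 {N : ℤ} {Y : Finset (Fin 8 → ℤ)} (h : H N Y) :
    N * T Y ![4, 4, 0, 0, 0, 0, 0, 0] = 2 * T Y ![6, 4, 0, 0, 0, 0, 0, 0] + 6 * T Y ![4, 4, 2, 0, 0, 0, 0, 0] := by
    rw [(h.2.2 ![4, 4, 0, 0, 0, 0, 0, 0]), Fin.sum_univ_eight,
      Tms h.1 (fun l => if l = 0 then (![4, 4, 0, 0, 0, 0, 0, 0] : Fin 8 → ℕ) l + 2 else (![4, 4, 0, 0, 0, 0, 0, 0] : Fin 8 → ℕ) l) ![6, 4, 0, 0, 0, 0, 0, 0] (by decide +kernel),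
      Tms h.1 (fun l => if l = 1 then (![4, 4, 0, 0, 0, 0, 0, 0] : Fin 8 → ℕ) l + 2 else (![4, 4, 0, 0, 0, 0, 0, 0] : Fin 8 → ℕ) l) ![6, 4, 0, 0, 0, 0, 0, 0] (by decide +kernel),
      Tms h.1 (fun l => if l = 2 then (![4, 4, 0, 0, 0, 0, 0, 0] : Fin 8 → ℕ) l + 2 else (![4, 4, 0, 0, 0, 0, 0, 0] : Fin 8 → ℕ) l) ![4, 4, 2, 0, 0, 0, 0, 0] (by decide +kernel),
      Tms h.1 (fun l => if l = 3 then (![4, 4, 0, 0, 0, 0, 0, 0] : Fin 8 → ℕ) l + 2 else (![4, 4, 0, 0, 0, 0, 0, 0] : Fin 8 → ℕ) l) ![4, 4, 2, 0, 0, 0, 0, 0] (by decide +kernel),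
      Tms h.1 (fun l => if l = 4 then (![4, 4, 0, 0, 0, 0, 0, 0] : Fin 8 → ℕ) l + 2 else (![4, 4, 0, 0, 0, 0, 0, 0] : Fin 8 → ℕ) l) ![4, 4, 2, 0, 0, 0, 0, 0] (by decide +kernel),
      Tms h.1 (fun l => if l = 5 then (![4, 4, 0, 0, 0, 0, 0, 0] : Fin 8 → ℕ) l + 2 else (![4, 4, 0, 0, 0, 0, 0, 0] : Fin 8 → ℕ) l) ![4, 4, 2, 0, 0, 0, 0, 0] (by decide +kernel),
      Tms h.1 (fun l => if l = 6 then (![4, 4, 0, 0, 0, 0, 0, 0] : Fin 8 → ℕ) l + 2 else (![4, 4, 0, 0, 0, 0, 0, 0] : Fin 8 → ℕ) l) ![4, 4, 2, 0, 0, 0, 0, 0] (by decide +kernel),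
      Tms h.1 (fun l => if l = 7 then (![4, 4, 0, 0, 0, 0, 0, 0] : Fin 8 → ℕ) l + 2 else (![4, 4, 0, 0, 0, 0, 0, 0] : Fin 8 → ℕ) l) ![4, 4, 2, 0, 0, 0, 0, 0] (by decide +kernel)]
    ring

theorem rel_4_2_2 {N : ℤ} {Y : Finset (Fin 8 → ℤ)} (h : H N Y) :
    N * T Y ![4, 2, 2, 0, 0, 0, 0, 0] = 1 * T Y ![6, 2, 2, 0, 0, 0, 0, 0] + 2 * T Y ![4, 4, 2, 0, 0, 0, 0, 0] + 5 * T Y ![4, 2, 2, 2, 0, 0, 0, 0] := by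
    rw [(h.2.2 ![4, 2, 2, 0, 0, 0, 0, 0]), Fin.sum_univ_eight,
      Tms h.1 (fun l => if l = 0 then (![4, 2, 2, 0, 0, 0, 0, 0] : Fin 8 → ℕ) l + 2 else (![4, 2, 2, 0, 0, 0, 0, 0] : Fin 8 → ℕ) l) ![6, 2, 2, 0, 0, 0, 0, 0] (by decide +kernel),
      Tms h.1 (fun l => if l = 1 then (![4, 2, 2, 0, 0, 0, 0, 0] : Fin 8 → ℕ) l + 2 else (![4, 2, 2, 0, 0, 0, 0, 0] : Fin 8 → ℕ) l) ![4, 4, 2, 0, 0, 0, 0, 0] (by decide +kernel),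
      Tms h.1 (fun l => if l = 2 then (![4, 2, 2, 0, 0, 0, 0, 0] : Fin 8 → ℕ) l + 2 else (![4, 2, 2, 0, 0, 0, 0, 0] : Fin 8 → ℕ) l) ![4, 4, 2, 0, 0, 0, 0, 0] (by decide +kernel),
      Tms h.1 (fun l => if l = 3 then (![4, 2, 2, 0, 0, 0, 0, 0] : Fin 8 → ℕ) l + 2 else (![4, 2, 2, 0, 0, 0, 0, 0] : Fin 8 → ℕ) l) ![4, 2, 2, 2, 0, 0, 0, 0] (by decide +kernel),
      Tms h.1 (fun l => if l = 4 then (![4, 2, 2, 0, 0, 0, 0, 0] : Fin 8 → ℕ) l + 2 else (![4, 2, 2, 0, 0, 0, 0, 0] : Fin 8 → ℕ) l) ![4, 2, 2, 2, 0, 0, 0, 0] (by decide +kernel),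
      Tms h.1 (fun l => if l = 5 then (![4, 2, 2, 0, 0, 0, 0, 0] : Fin 8 → ℕ) l + 2 else (![4, 2, 2, 0, 0, 0, 0, 0] : Fin 8 → ℕ) l) ![4, 2, 2, 2, 0, 0, 0, 0] (by decide +kernel),
      Tms h.1 (fun l => if l = 6 then (![4, 2, 2, 0, 0, 0, 0, 0] : Fin 8 → ℕ) l + 2 else (![4, 2, 2, 0, 0, 0, 0, 0] : Fin 8 → ℕ) l) ![4, 2, 2, 2, 0, 0, 0, 0] (by decide +kernel),
      Tms h.1 (fun l => if l = 7 then (![4, 2, 2, 0, 0, 0, 0, 0] : Fin 8 → ℕ) l + 2 else (![4, 2, 2, 0, 0, 0, 0, 0] : Fin 8 → ℕ) l) ![4, 2, 2, 2, 0, 0, 0, 0] (by decide +kernel)]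
    ring

theorem rel_2_2_2_2 {N : ℤ} {Y : Finset (Fin 8 → ℤ)} (h : H N Y) :
    N * T Y ![2, 2, 2, 2, 0, 0, 0, 0] = 4 * T Y ![4, 2, 2, 2, 0, 0, 0, 0] + 4 * T Y ![2, 2, 2, 2, 2, 0, 0, 0] := by
    rw [(h.2.2 ![2, 2, 2, 2, 0, 0, 0, 0]), Fin.sum_univ_eight,
      Tms h.1 (fun l => if l = 0 then (![2, 2, 2, 2, 0, 0, 0, 0] : Fin 8 → ℕ) l + 2 else (![2, 2, 2, 2, 0, 0, 0, 0] : Fin 8 → ℕ) l) ![4, 2, 2, 2, 0, 0, 0, 0] (by decide +kernel),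
      Tms h.1 (fun l => if l = 1 then (![2, 2, 2, 2, 0, 0, 0, 0] : Fin 8 → ℕ) l + 2 else (![2, 2, 2, 2, 0, 0, 0, 0] : Fin 8 → ℕ) l) ![4, 2, 2, 2, 0, 0, 0, 0] (by decide +kernel),
      Tms h.1 (fun l => if l = 2 then (![2, 2, 2, 2, 0, 0, 0, 0] : Fin 8 → ℕ) l + 2 else (![2, 2, 2, 2, 0, 0, 0, 0] : Fin 8 → ℕ) l) ![4, 2, 2, 2, 0, 0, 0, 0] (by decide +kernel),
      Tms h.1 (fun l => if l = 3 then (![2, 2, 2, 2, 0, 0, 0, 0] : Fin 8 → ℕ) l + 2 else (![2, 2, 2, 2, 0, 0, 0, 0] : Fin 8 → ℕ) l) ![4, 2, 2, 2, 0, 0, 0, 0] (by decide +kernel),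
      Tms h.1 (fun l => if l = 4 then (![2, 2, 2, 2, 0, 0, 0, 0] : Fin 8 → ℕ) l + 2 else (![2, 2, 2, 2, 0, 0, 0, 0] : Fin 8 → ℕ) l) ![2, 2, 2, 2, 2, 0, 0, 0] (by decide +kernel),
      Tms h.1 (fun l => if l = 5 then (![2, 2, 2, 2, 0, 0, 0, 0] : Fin 8 → ℕ) l + 2 else (![2, 2, 2, 2, 0, 0, 0, 0] : Fin 8 → ℕ) l) ![2, 2, 2, 2, 2, 0, 0, 0] (by decide +kernel),
      Tms h.1 (fun l => if l = 6 then (![2, 2, 2, 2, 0, 0, 0, 0] : Fin 8 → ℕ) l + 2 else (![2, 2, 2, 2, 0, 0, 0, 0] : Fin 8 → ℕ) l) ![2, 2, 2, 2, 2, 0, 0, 0] (by decide +kernel),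
      Tms h.1 (fun l => if l = 7 then (![2, 2, 2, 2, 0, 0, 0, 0] : Fin 8 → ℕ) l + 2 else (![2, 2, 2, 2, 0, 0, 0, 0] : Fin 8 → ℕ) l) ![2, 2, 2, 2, 2, 0, 0, 0] (by decide +kernel)]
    ring

theorem prod_one (v : Fin 8 → ℤ) (i : Fin 8) (c : ℕ) :
    ∏ l, v l ^ (if l = i then c else 0) = v i ^ c := by
  rw [Finset.prod_eq_single i]
  · simp
  · intro b _ hb
    simp [hb]
  · intro h
    exact absurd (Finset.mem_univ i) h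

theorem sumP {Y : Finset (Fin 8 → ℤ)} (a : ℕ) :
    ∑ v ∈ Y, P a v = ∑ i, T Y (fun l => if l = i then 2 * a else 0) := by
  unfold P T
  rw [Finset.sum_comm]
  refine Finset.sum_congr rfl fun i _ => Finset.sum_congr rfl fun v _ => ?_
  rw [prod_one]

theorem sumPP {Y : Finset (Fin 8 → ℤ)} (a b : ℕ) :
    ∑ v ∈ Y, P a v * P b v
      = ∑ i, ∑ j, T Y (fun l => (if l = i then 2 * a else 0) + (if l = j then 2 * b else 0)) := by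
  unfold P T
  have h1 : ∀ v ∈ Y, (∑ i, v i ^ (2 * a)) * ∑ i, v i ^ (2 * b)
      = ∑ i, ∑ j, ∏ l, v l ^ ((if l = i then 2 * a else 0) + (if l = j then 2 * b else 0)) := by
    intro v _
    rw [Finset.sum_mul_sum]
    refine Finset.sum_congr rfl fun i _ => Finset.sum_congr rfl fun j _ => ?_
    simp only [pow_add]
    rw [Finset.prod_mul_distrib, prod_one, prod_one]
  rw [Finset.sum_congr rfl h1, Finset.sum_comm]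
  refine Finset.sum_congr rfl fun i _ => ?_
  rw [Finset.sum_comm]

theorem sum_if (A B : ℤ) : ∑ i : Fin 8, ∑ j : Fin 8, (if i = j then A else B) = 8 * A + 56 * B := by
  simp [Fin.sum_univ_eight]
  ring

theorem sP2 {N : ℤ} {Y : Finset (Fin 8 → ℤ)} (h : H N Y) :
    ∑ v ∈ Y, P 2 v = 8 * T Y ![4, 0, 0, 0, 0, 0, 0, 0] := by
  rw [sumP]
  have h1 : ∀ i ∈ (Finset.univ : Finset (Fin 8)), T Y (fun l => if l = i then 2 * 2 else 0) = T Y ![4, 0, 0, 0, 0, 0, 0, 0] := by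
    intro i _
    apply Tms h.1
    revert i
    decide +kernel
  rw [Finset.sum_congr rfl h1]
  simp

theorem sP3 {N : ℤ} {Y : Finset (Fin 8 → ℤ)} (h : H N Y) :
    ∑ v ∈ Y, P 3 v = 8 * T Y ![6, 0, 0, 0, 0, 0, 0, 0] := by
  rw [sumP]
  have h1 : ∀ i ∈ (Finset.univ : Finset (Fin 8)), T Y (fun l => if l = i then 2 * 3 else 0) = T Y ![6, 0, 0, 0, 0, 0, 0, 0] := by
    intro i _
    apply Tms h.1
    revert i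
    decide +kernel
  rw [Finset.sum_congr rfl h1]
  simp

theorem sP4 {N : ℤ} {Y : Finset (Fin 8 → ℤ)} (h : H N Y) :
    ∑ v ∈ Y, P 4 v = 8 * T Y ![8, 0, 0, 0, 0, 0, 0, 0] := by
  rw [sumP]
  have h1 : ∀ i ∈ (Finset.univ : Finset (Fin 8)), T Y (fun l => if l = i then 2 * 4 else 0) = T Y ![8, 0, 0, 0, 0, 0, 0, 0] := by
    intro i _
    apply Tms h.1
    revert i
    decide +kernel
  rw [Finset.sum_congr rfl h1]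
  simp

theorem sP5 {N : ℤ} {Y : Finset (Fin 8 → ℤ)} (h : H N Y) :
    ∑ v ∈ Y, P 5 v = 8 * T Y ![10, 0, 0, 0, 0, 0, 0, 0] := by
  rw [sumP]
  have h1 : ∀ i ∈ (Finset.univ : Finset (Fin 8)), T Y (fun l => if l = i then 2 * 5 else 0) = T Y ![10, 0, 0, 0, 0, 0, 0, 0] := by
    intro i _
    apply Tms h.1
    revert i
    decide +kernel
  rw [Finset.sum_congr rfl h1]
  simp

theorem sPP4 {N : ℤ} {Y : Finset (Fin 8 → ℤ)} (h : H N Y) :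
    ∑ v ∈ Y, P 2 v * P 2 v = 8 * T Y ![8, 0, 0, 0, 0, 0, 0, 0] + 56 * T Y ![4, 4, 0, 0, 0, 0, 0, 0] := by
  rw [sumPP]
  have h1 : ∀ i ∈ (Finset.univ : Finset (Fin 8)), ∀ j ∈ (Finset.univ : Finset (Fin 8)),
      T Y (fun l => (if l = i then 2 * 2 else 0) + (if l = j then 2 * 2 else 0))
        = if i = j then T Y ![8, 0, 0, 0, 0, 0, 0, 0] else T Y ![4, 4, 0, 0, 0, 0, 0, 0] := by
    intro i _ j _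
    split_ifs with hij
    · apply Tms h.1
      subst hij
      revert i
      decide +kernel
    · apply Tms h.1
      revert i j
      decide +kernel
  rw [Finset.sum_congr rfl fun i hi => Finset.sum_congr rfl fun j hj => h1 i hi j hj, sum_if]

theorem sPP5 {N : ℤ} {Y : Finset (Fin 8 → ℤ)} (h : H N Y) :
    ∑ v ∈ Y, P 2 v * P 3 v = 8 * T Y ![10, 0, 0, 0, 0, 0, 0, 0] + 56 * T Y ![6, 4, 0, 0, 0, 0, 0, 0] := by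
  rw [sumPP]
  have h1 : ∀ i ∈ (Finset.univ : Finset (Fin 8)), ∀ j ∈ (Finset.univ : Finset (Fin 8)),
      T Y (fun l => (if l = i then 2 * 2 else 0) + (if l = j then 2 * 3 else 0))
        = if i = j then T Y ![10, 0, 0, 0, 0, 0, 0, 0] else T Y ![6, 4, 0, 0, 0, 0, 0, 0] := by
    intro i _ j _
    split_ifs with hij
    · apply Tms h.1
      subst hij
      revert i
      decide +kernel
    · apply Tms h.1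
      revert i j
      decide +kernel
  rw [Finset.sum_congr rfl fun i hi => Finset.sum_congr rfl fun j hj => h1 i hi j hj, sum_if]

theorem T0 {Y : Finset (Fin 8 → ℤ)} : T Y ![0, 0, 0, 0, 0, 0, 0, 0] = Y.card := by
  unfold T
  have h1 : ∀ v ∈ Y, ∏ i, v i ^ (![0, 0, 0, 0, 0, 0, 0, 0] : Fin 8 → ℕ) i = 1 := by
    intro v _
    simp [Fin.prod_univ_eight]
  rw [Finset.sum_congr rfl h1]
  simp

end TreL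

open TreL in
theorem tre : S_TSY → S_TRE := by
  intro hT N Y hI h7
  have h : H N Y := hT N Y hI
  obtain ⟨a2, a3, a4, a22, a5, a23, -⟩ := h7
  simp only [sq] at a22
  rw [sP2 h] at a2
  rw [sP3 h] at a3
  rw [sP4 h] at a4
  rw [sP5 h] at a5
  rw [sPP4 h] at a22
  rw [sPP5 h] at a23
  have r0 := rel_0 h
  have r2 := rel_2 h
  have r4 := rel_4 h
  have r22 := rel_2_2 h
  have r6 := rel_6 h
  have r42 := rel_4_2 h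
  have r222 := rel_2_2_2 h
  have r8 := rel_8 h
  have r62 := rel_6_2 h
  have r44 := rel_4_4 h
  have r422 := rel_4_2_2 h
  have r2222 := rel_2_2_2_2 h
  rw [T0] at r0
  refine ⟨?_, ?_, ?_, ?_, ?_, ?_, ?_⟩
  · linear_combination (105) * N ^ 0 * a5
  · linear_combination (-30720) * N ^ 0 * r8 + (240) * N ^ 1 * a4 + (-15) * N ^ 0 * a5
  · linear_combination (-15) * N ^ 0 * a5 + (60) * N ^ 0 * a23
  · linear_combination (-5120) * N ^ 1 * r6 + (5120) * N ^ 0 * r8 + (-35840) * N ^ 0 * r62 + (80) * N ^ 2 * a3 + (-80) * N ^ 1 * a4 + (5) * N ^ 0 * a5 + (-10) * N ^ 0 * a23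
  · linear_combination (-35840) * N ^ 0 * r44 + (-40) * N ^ 1 * a4 + (64) * N ^ 1 * a22 + (5) * N ^ 0 * a5 + (-20) * N ^ 0 * a23
  · apply mul_left_cancel₀ (show (5 : ℤ) ≠ 0 by norm_num)
    linear_combination (-5120) * N ^ 2 * r4 + (10240) * N ^ 1 * r6 + (-35840) * N ^ 1 * r42 + (-5120) * N ^ 0 * r8 + (35840) * N ^ 0 * r62 + (71680) * N ^ 0 * r44 + (-215040) * N ^ 0 * r422 + (64) * N ^ 3 * a2 + (-240) * N ^ 2 * a3 + (240) * N ^ 1 * a4 + (-192) * N ^ 1 * a22 + (-15) * N ^ 0 * a5 + (50) * N ^ 0 * a23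
  · linear_combination (-32) * N ^ 4 * r0 + (-256) * N ^ 3 * r2 + (2304) * N ^ 2 * r4 + (-1792) * N ^ 2 * r22 + (-2816) * N ^ 1 * r6 + (12544) * N ^ 1 * r42 + (-10752) * N ^ 1 * r222 + (1024) * N ^ 0 * r8 + (-7168) * N ^ 0 * r62 + (-14336) * N ^ 0 * r44 + (43008) * N ^ 0 * r422 + (-53760) * N ^ 0 * r2222 + (-32) * N ^ 3 * a2 + (80) * N ^ 2 * a3 + (-60) * N ^ 1 * a4 + (48) * N ^ 1 * a22 + (3) * N ^ 0 * a5 + (-10) * N ^ 0 * a23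

end Pool.Agent.Helper17K9.EX
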