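import Pool.Agent.Helper17K9.EX.Stm

/-!
# [TSY], [TEN] (helper27)
-/

set_option autoImplicit false

namespace Pool.Agent.Helper17K9.EX

namespace TsL

lemma perm {N : ℤ} {Y : Finset (Fin 8 → ℤ)} (H : Inv N Y) (β : Fin 8 → ℕ)
    (π : Equiv.Perm (Fin 8)) : T Y (fun i => β (π i)) = T Y β := by
  unfold T
  refine Finset.sum_nbij' (fun v i => v (π.symm i)) (fun v i => v (π i)) ?_ ?_ ?_ ?_ ?_
  · intro v hv
    exact H.1 v hv π.symm
  · intro v hv
    exact H.1 v hv π
  · intro v _
    funext i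
    simp
  · intro v _
    funext i
    simp
  · intro v _
    have h := Equiv.prod_comp π (fun j => v (π.symm j) ^ β j)
    simp only [Equiv.symm_apply_apply] at h
    exact h

lemma flip {N : ℤ} {Y : Finset (Fin 8 → ℤ)} (H : Inv N Y) (β : Fin 8 → ℕ) (i j : Fin 8)
    (hi : Even (β i)) (hj : Odd (β j)) : T Y β = 0 := by
  have hij : i ≠ j := by
    rintro rfl
    exact (Nat.not_even_iff_odd.2 hj) hi
  have h1 : T Y β = - T Y β := by
    unfold T
    rw [← Finset.sum_neg_distrib]
    refine Finset.sum_nbij' (fun v l => if l = i ∨ l = j then - v l else v l)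
      (fun v l => if l = i ∨ l = j then - v l else v l) ?_ ?_ ?_ ?_ ?_
    · intro v hv
      exact H.2.1 v hv i j hij
    · intro v hv
      exact H.2.1 v hv i j hij
    · intro v _
      funext l
      by_cases h : l = i ∨ l = j
      · simp only [h, if_true, neg_neg]
      · simp only [h, if_false]
    · intro v _
      funext l
      by_cases h : l = i ∨ l = j
      · simp only [h, if_true, neg_neg]
      · simp only [h, if_false]
    · intro v _
      have e : ∀ l, (if l = i ∨ l = j then - v l else v l) ^ β l =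
          (if l = j then (-1) else 1) * v l ^ β l := by
        intro l
        by_cases h : l = i
        · subst h
          rw [if_pos (Or.inl rfl), if_neg hij, hi.neg_pow, one_mul]
        · by_cases h2 : l = j
          · subst h2
            rw [if_pos (Or.inr rfl), if_pos rfl, hj.neg_pow]
            ring
          · rw [if_neg (by tauto), if_neg h2, one_mul]
      simp only [e]
      rw [Finset.prod_mul_distrib, Finset.prod_ite_eq']
      simp
  omega

lemma norm {N : ℤ} {Y : Finset (Fin 8 → ℤ)} (H : Inv N Y) (β : Fin 8 → ℕ) :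
    N * T Y β = ∑ i, T Y (fun l => if l = i then β l + 2 else β l) := by
  unfold T
  rw [Finset.mul_sum, Finset.sum_comm]
  refine Finset.sum_congr rfl fun v hv => ?_
  rw [← H.2.2 v hv, Finset.sum_mul]
  refine Finset.sum_congr rfl fun i _ => ?_
  have e : ∀ l, v l ^ (if l = i then β l + 2 else β l) = (if l = i then v i ^ 2 else 1) * v l ^ β l := by
    intro l
    by_cases h : l = i
    · subst h
      rw [if_pos rfl, if_pos rfl]
      ring
    · rw [if_neg h, if_neg h, one_mul]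
  simp only [e]
  rw [Finset.prod_mul_distrib, Finset.prod_ite_eq']
  simp

end TsL

theorem tsy : S_TSY := fun _ _ H => ⟨TsL.perm H, TsL.flip H, TsL.norm H⟩

namespace TenL

/-- the parts -/
lemma parts : ∀ a0 ∈ Finset.range 6, ∀ a1 ∈ Finset.range 6, ∀ a2 ∈ Finset.range 6,
    ∀ a3 ∈ Finset.range 6, ∀ a4 ∈ Finset.range 6, a1 ≤ a0 → a2 ≤ a1 → a3 ≤ a2 → a4 ≤ a3 →
    a0 + a1 + a2 + a3 + a4 = 5 →
    (a0, a1, a2, a3, a4) ∈ [(5, 0, 0, 0, 0), (4, 1, 0, 0, 0), (3, 2, 0, 0, 0), (3, 1, 1, 0, 0),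
      (2, 2, 1, 0, 0), (2, 1, 1, 1, 0), (1, 1, 1, 1, 1)] := by
  decide +kernel

lemma seven {δ : Fin 8 → ℕ} (ha : Antitone δ) (hs : ∑ i, δ i = 5) :
    δ = ![5, 0, 0, 0, 0, 0, 0, 0] ∨ δ = ![4, 1, 0, 0, 0, 0, 0, 0] ∨
    δ = ![3, 2, 0, 0, 0, 0, 0, 0] ∨ δ = ![3, 1, 1, 0, 0, 0, 0, 0] ∨
    δ = ![2, 2, 1, 0, 0, 0, 0, 0] ∨ δ = ![2, 1, 1, 1, 0, 0, 0, 0] ∨
    δ = ![1, 1, 1, 1, 1, 0, 0, 0] := by
  have h01 : δ 1 ≤ δ 0 := ha (by decide)
  have h12 : δ 2 ≤ δ 1 := ha (by decide)
  have h23 : δ 3 ≤ δ 2 := ha (by decide)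
  have h34 : δ 4 ≤ δ 3 := ha (by decide)
  have h45 : δ 5 ≤ δ 4 := ha (by decide)
  have h56 : δ 6 ≤ δ 5 := ha (by decide)
  have h67 : δ 7 ≤ δ 6 := ha (by decide)
  have hs' : δ 0 + δ 1 + δ 2 + δ 3 + δ 4 + δ 5 + δ 6 + δ 7 = 5 := by
    rw [← hs, Fin.sum_univ_eight]
  have h5 : δ 5 = 0 := by omega
  have h6 : δ 6 = 0 := by omega
  have h7 : δ 7 = 0 := by omega
  have key := parts (δ 0) (Finset.mem_range.2 (by omega)) (δ 1) (Finset.mem_range.2 (by omega))
    (δ 2) (Finset.mem_range.2 (by omega)) (δ 3) (Finset.mem_range.2 (by omega))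
    (δ 4) (Finset.mem_range.2 (by omega)) h01 h12 h23 h34 (by omega)
  have ext : ∀ a0 a1 a2 a3 a4 : ℕ, (δ 0, δ 1, δ 2, δ 3, δ 4) = (a0, a1, a2, a3, a4) →
      δ = ![a0, a1, a2, a3, a4, 0, 0, 0] := by
    intro a0 a1 a2 a3 a4 h
    simp only [Prod.mk.injEq] at h
    funext i
    fin_cases i
    · exact h.1
    · exact h.2.1
    · exact h.2.2.1
    · exact h.2.2.2.1
    · exact h.2.2.2.2
    · exact h5
    · exact h6
    · exact h7
  simp only [List.mem_cons, List.not_mem_nil, or_false] at key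
  rcases key with h | h | h | h | h | h | h
  · exact Or.inl (ext _ _ _ _ _ h)
  · exact Or.inr (Or.inl (ext _ _ _ _ _ h))
  · exact Or.inr (Or.inr (Or.inl (ext _ _ _ _ _ h)))
  · exact Or.inr (Or.inr (Or.inr (Or.inl (ext _ _ _ _ _ h))))
  · exact Or.inr (Or.inr (Or.inr (Or.inr (Or.inl (ext _ _ _ _ _ h)))))
  · exact Or.inr (Or.inr (Or.inr (Or.inr (Or.inr (Or.inl (ext _ _ _ _ _ h))))))
  · exact Or.inr (Or.inr (Or.inr (Or.inr (Or.inr (Or.inr (ext _ _ _ _ _ h))))))

lemma sorted (γ : Fin 8 → ℕ) : ∃ π : Equiv.Perm (Fin 8), Antitone (fun i => γ (π i)) := by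
  refine ⟨Tuple.sort (fun i => OrderDual.toDual (γ i)), ?_⟩
  have h := Tuple.monotone_sort (fun i => OrderDual.toDual (γ i))
  intro a b hab
  exact h hab

end TenL

open TenL in
theorem ten (hT : S_TSY) (hR : S_TRE) : S_TEN := by
  intro N Y H h7
  obtain ⟨hp, hf, hn⟩ := hT N Y H
  obtain ⟨r1, r2, r3, r4, r5, r6, r7⟩ := hR N Y H h7
  refine ⟨fun γ hγ => ?_, fun β hβ hodd => ?_⟩
  · obtain ⟨π, hπ⟩ := sorted γ
    have hs : ∑ i, γ (π i) = 5 := by rw [Equiv.sum_comp π γ, hγ]
    have e1 : T Y (fun i => 2 * γ i) = T Y (fun i => 2 * γ (π i)) :=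
      (hp (fun i => 2 * γ i) π).symm
    have e2 : (∏ i, (Nat.doubleFactorial (2 * γ i - 1) : ℤ)) =
        ∏ i, (Nat.doubleFactorial (2 * γ (π i) - 1) : ℤ) :=
      (Equiv.prod_comp π (fun i => (Nat.doubleFactorial (2 * γ i - 1) : ℤ))).symm
    rw [e1, e2]
    set δ : Fin 8 → ℕ := fun i => γ (π i) with hδ
    show 215040 * T Y (fun i => 2 * δ i) =
      (∏ i, (Nat.doubleFactorial (2 * δ i - 1) : ℤ)) * N ^ 5 * Y.card
    have two : ∀ a0 a1 a2 a3 a4 : ℕ, (fun i => 2 * (![a0, a1, a2, a3, a4, 0, 0, 0] : Fin 8 → ℕ) i) =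
        ![2 * a0, 2 * a1, 2 * a2, 2 * a3, 2 * a4, 0, 0, 0] := by
      intro a0 a1 a2 a3 a4
      funext i
      fin_cases i <;> rfl
    have pr : ∀ a0 a1 a2 a3 a4 : ℕ,
        (∏ i, (Nat.doubleFactorial (2 * (![a0, a1, a2, a3, a4, 0, 0, 0] : Fin 8 → ℕ) i - 1) : ℤ)) =
        (Nat.doubleFactorial (2 * a0 - 1) : ℤ) * (Nat.doubleFactorial (2 * a1 - 1) : ℤ) *
        (Nat.doubleFactorial (2 * a2 - 1) : ℤ) * (Nat.doubleFactorial (2 * a3 - 1) : ℤ) *
        (Nat.doubleFactorial (2 * a4 - 1) : ℤ) := by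
      intro a0 a1 a2 a3 a4
      rw [Fin.prod_univ_eight]
      show (Nat.doubleFactorial (2 * a0 - 1) : ℤ) * (Nat.doubleFactorial (2 * a1 - 1) : ℤ) *
        (Nat.doubleFactorial (2 * a2 - 1) : ℤ) * (Nat.doubleFactorial (2 * a3 - 1) : ℤ) *
        (Nat.doubleFactorial (2 * a4 - 1) : ℤ) * (Nat.doubleFactorial 0 : ℤ) *
        (Nat.doubleFactorial 0 : ℤ) * (Nat.doubleFactorial 0 : ℤ) = _
      simp [Nat.doubleFactorial]
    rcases seven hπ hs with h | h | h | h | h | h | h
    · have h' : δ = ![5, 0, 0, 0, 0, 0, 0, 0] := h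
      rw [h', two, pr, r1]
      norm_num [Nat.doubleFactorial]
    · have h' : δ = ![4, 1, 0, 0, 0, 0, 0, 0] := h
      rw [h', two, pr, r2]
      norm_num [Nat.doubleFactorial]
    · have h' : δ = ![3, 2, 0, 0, 0, 0, 0, 0] := h
      rw [h', two, pr, r3]
      norm_num [Nat.doubleFactorial]
    · have h' : δ = ![3, 1, 1, 0, 0, 0, 0, 0] := h
      rw [h', two, pr, r4]
      norm_num [Nat.doubleFactorial]
    · have h' : δ = ![2, 2, 1, 0, 0, 0, 0, 0] := h
      rw [h', two, pr, r5]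
      norm_num [Nat.doubleFactorial]
    · have h' : δ = ![2, 1, 1, 1, 0, 0, 0, 0] := h
      rw [h', two, pr, r6]
      norm_num [Nat.doubleFactorial]
    · have h' : δ = ![1, 1, 1, 1, 1, 0, 0, 0] := h
      rw [h', two, pr, r7]
      norm_num [Nat.doubleFactorial]
  · by_cases hev : ∃ i, Even (β i)
    · obtain ⟨i, hi⟩ := hev
      obtain ⟨j, hj⟩ := hodd
      exact hf β i j hi hj
    · push Not at hev
      have hod : ∀ i, Odd (β i) := fun i => Nat.not_even_iff_odd.1 (hev i)
      choose c hc using hod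
      have hsc : ∑ i, c i = 1 := by
        have : ∑ i, β i = 2 * (∑ i, c i) + 8 := by
          rw [Finset.mul_sum]
          have e : ∀ i ∈ (Finset.univ : Finset (Fin 8)), β i = 2 * c i + 1 := fun i _ => hc i
          rw [Finset.sum_congr rfl e, Finset.sum_add_distrib]
          simp
        omega
      obtain ⟨i0, hi0⟩ : ∃ i0, 0 < c i0 := by
        by_contra h
        push Not at h
        have : ∑ i, c i = 0 := Finset.sum_eq_zero fun i _ => by have := h i; omega
        omega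
      have h1 : c i0 ≤ ∑ i, c i := Finset.single_le_sum (fun _ _ => Nat.zero_le _) (Finset.mem_univ _)
      have hz : ∀ l, l ≠ i0 → c l = 0 := by
        intro l hl
        have h2 : c i0 + c l ≤ ∑ i, c i := by
          rw [← Finset.sum_pair (f := c) (Ne.symm hl)]
          exact Finset.sum_le_sum_of_subset (Finset.subset_univ _)
        omega
      have hβ' : β = fun l => if l = i0 then 1 + 2 else 1 := by
        funext l
        by_cases h : l = i0
        · subst h
          rw [if_pos rfl, hc l]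
          omega
        · rw [if_neg h, hc l, hz l h, mul_zero, zero_add]
      have h0 : T Y (fun _ => 1) = 0 := by
        have := h7.2.2.2.2.2.2
        unfold T
        simpa using this
      have hn1 := hn (fun _ => 1)
      rw [h0, mul_zero] at hn1
      have heq : ∀ i, T Y (fun l => if l = i then 1 + 2 else 1) =
          T Y (fun l => if l = i0 then 1 + 2 else 1) := by
        intro i
        have h3 := hp (fun l => if l = i0 then 1 + 2 else 1) (Equiv.swap i i0)
        rw [← h3]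
        congr 1
        funext l
        have h4 : (l = i) ↔ (Equiv.swap i i0 l = i0) := by
          constructor
          · rintro rfl; exact Equiv.swap_apply_left _ _
          · intro h
            have := congrArg (Equiv.swap i i0) h
            rwa [Equiv.swap_apply_self, Equiv.swap_apply_right] at this
        by_cases h : l = i
        · rw [if_pos h, if_pos (h4.1 h)]
        · rw [if_neg h, if_neg (fun h5 => h (h4.2 h5))]
      rw [Finset.sum_congr rfl fun i _ => heq i, Finset.sum_const, Finset.card_univ,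
        Fintype.card_fin] at hn1
      rw [hβ']
      have h5 : (8 : ℤ) * T Y (fun l => if l = i0 then 1 + 2 else 1) = 0 := by
        rw [hn1]; simp
      omega

end Pool.Agent.Helper17K9.EX
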